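import Pool.Agent.Lib.MP_d6a497_nt.QOrd

/-! Ramanujan identities, depth-one quasimodular forms, uniqueness and the differential equation. -/

namespace Pool.Agent.Lib.MP_d6a497_nt

open UpperHalfPlane hiding I
open Complex Filter Metric Function Derivative EisensteinSeries ModularForm ModularGroup
open ArithmeticFunction
open scoped Manifold MatrixGroups ModularForm Topology Real sigma

lemma slS_apply (F : ℍ → ℂ) (k : ℤ) (z : ℍ) : (F ∣[k] S) z = F (S • z) * (z : ℂ) ^ (-k) := by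
  rw [SL_slash_apply, denom_S]

lemma coe_S_smul (z : ℍ) : ((S • z : ℍ) : ℂ) = -(z : ℂ)⁻¹ := by
  rw [modular_S_smul]; simp [inv_neg]

lemma S_S_smul (z : ℍ) : S • S • z = z := by
  ext; rw [coe_S_smul, coe_S_smul]; simp

lemma slS_slS (F : ℍ → ℂ) {k : ℤ} (hk : Odd k) : (F ∣[k] S) ∣[k] S = -F := by
  ext z
  have hz := z.ne_zero
  rw [slS_apply, slS_apply, S_S_smul, coe_S_smul, (odd_neg.2 hk).neg_zpow, inv_zpow',
    neg_neg, Pi.neg_apply, zpow_neg]
  have : (z : ℂ) ^ k ≠ 0 := zpow_ne_zero _ hz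
  field_simp

lemma mdiff_slS {F : ℍ → ℂ} (hF : MDiff F) (k : ℤ) : MDiff (F ∣[k] S) :=
  hF.slash k _

/-- a holomorphic function with a q-expansion that is `S`-invariant is a modular form -/
noncomputable def mkMF {F : ℍ → ℂ} {c : ℂ} {n : ℕ} (k : ℤ) (h : Ord n F c)
    (hS : F ∣[k] S = F) : ModularForm 𝒮ℒ k where
  toFun := F
  slash_action_eq' A hA := by
    obtain ⟨A, rfl⟩ := hA
    exact SlashInvariantForm.slash_action_generators_SL2Z hS (h.slash_T k) A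
  holo' := h.mdiff
  bdd_at_cusps' hc := by
    rw [Subgroup.IsArithmetic.isCusp_iff_isCusp_SL2Z] at hc
    rw [OnePoint.isBoundedAt_iff_forall_SL2Z hc]
    intro γ _
    rw [SlashInvariantForm.slash_action_generators_SL2Z hS (h.slash_T k)]
    exact h.bdd

lemma sturm {F : ℍ → ℂ} {c : ℂ} {n : ℕ} (k : ℕ) (h : Ord n F c) (hS : F ∣[(k : ℤ)] S = F)
    (hn : k / 12 < n) : F = 0 := by
  have : mkMF k h hS = 0 :=
    sturm_bound_levelOne_nat (lt_of_lt_of_le (by exact_mod_cast hn) h.le_order)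
  exact congrArg DFunLike.coe this

lemma mf_slS {k : ℤ} (f : ModularForm 𝒮ℒ k) : (f : ℍ → ℂ) ∣[k] S = f :=
  SlashInvariantForm.slash_action_eqn f _ ⟨S, rfl⟩

/-! ### Eisenstein series -/

noncomputable def E4 : ℍ → ℂ := E₄
noncomputable def E6 : ℍ → ℂ := E₆
noncomputable def Dl : ℍ → ℂ := ModularForm.discriminant

lemma hasSum_E2 (τ : ℍ) :
    HasSum (fun m : ℕ => (if m = 0 then 1 else -24 * σ 1 m : ℂ) * qq τ ^ m) (E2 τ) := by
  simpa [qq, Periodic.qParam] using hasSum_qExpansion_E2 (z := τ)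

lemma hasSum_mf {k : ℤ} (f : ModularForm 𝒮ℒ k) (τ : ℍ) :
    HasSum (fun m : ℕ => (qExpansion 1 f).coeff m * qq τ ^ m) (f τ) :=
  let h := Ord.of_mf f
  τ.hasSum_qExpansion one_pos h.periodic h.mdiff h.bdd

lemma hasSum_E4 (τ : ℍ) :
    HasSum (fun m : ℕ => (if m = 0 then 1 else 240 * σ 3 m : ℂ) * qq τ ^ m) (E4 τ) := by
  have := hasSum_mf E₄ τ
  simp only [E_qExpansion_coeff _ ⟨2, rfl⟩, show bernoulli 4 = -1 / 30 by decide +kernel] at this
  norm_num at this ⊢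
  exact this

lemma hasSum_E6 (τ : ℍ) :
    HasSum (fun m : ℕ => (if m = 0 then 1 else -504 * σ 5 m : ℂ) * qq τ ^ m) (E6 τ) := by
  have := hasSum_mf E₆ τ
  simp only [E_qExpansion_coeff _ ⟨3, rfl⟩, show bernoulli 6 = 1 / 42 by decide +kernel] at this
  norm_num at this ⊢
  exact this

lemma E2_vadd (τ : ℍ) : E2 ((1 : ℝ) +ᵥ τ) = E2 τ := by
  have : qq ((1 : ℝ) +ᵥ τ) = qq τ := by
    simp only [qq, Periodic.qParam, coe_vadd, ofReal_one, div_one]
    rw [mul_add, mul_one, add_comm, exp_periodic]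
  have h := hasSum_E2 ((1 : ℝ) +ᵥ τ)
  rw [this] at h
  exact h.unique (hasSum_E2 τ)

lemma ord_E2 : Ord 0 E2 1 := by
  have hp : Periodic (E2 ∘ ofComplex) (1 : ℝ) := by
    intro w
    by_cases hw : 0 < w.im
    · have : 0 < (w + (1 : ℝ)).im := by simpa using hw
      simp only [comp_apply, ofComplex_apply_of_im_pos this, ofComplex_apply_of_im_pos hw]
      rw [← E2_vadd ⟨w, hw⟩]
      congr 1
      ext
      simp [add_comm]
    · have hw' : w.im ≤ 0 := not_lt.1 hw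
      have : (w + (1 : ℝ)).im ≤ 0 := by simpa using hw'
      simp only [comp_apply, ofComplex_apply_of_im_nonpos this, ofComplex_apply_of_im_nonpos hw']
  have h := Ord.of_periodic hp E2_mdifferentiable isBoundedAtImInfty_E2
  have h0 : (1 : ℂ) = (qExpansion 1 E2).coeff 0 := by
    have h1 := (hasFPowerSeriesOnBall_cuspFunction one_pos h.analytic
      (c := fun m : ℕ => (if m = 0 then 1 else -24 * σ 1 m : ℂ)) hasSum_E2).hasFPowerSeriesAt
    have := h1.coeff_zero (fun _ => 1)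
    simp only [qExpansion_coeff, iteratedDeriv_zero, ← this]
    simp
  exact h0 ▸ h

lemma ord_E4 : Ord 0 E4 1 := by
  simpa [E_qExpansion_coeff_zero _ ⟨2, rfl⟩, E4] using Ord.of_mf E₄

lemma ord_E6 : Ord 0 E6 1 := by
  simpa [E_qExpansion_coeff_zero _ ⟨3, rfl⟩, E6] using Ord.of_mf E₆

lemma ord_Dl : Ord 1 Dl 1 := by
  have h := Ord.of_mf (CuspForm.discriminant : ModularForm 𝒮ℒ 12)
  have h1 := h.of_coeff (n := 1) (by
    intro j hj
    obtain rfl : j = 0 := by omega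
    exact CuspFormClass.qExpansion_coeff_zero CuspForm.discriminant one_pos
      one_mem_strictPeriods_SL)
  exact h1.congr (fun _ => rfl) discriminant_qExpansion_coeff_one.symm

lemma E4_S : E4 ∣[(4 : ℤ)] S = E4 := mf_slS E₄
lemma E6_S : E6 ∣[(6 : ℤ)] S = E6 := mf_slS E₆
lemma Dl_S : Dl ∣[(12 : ℤ)] S = Dl := discriminant_S_invariant

lemma E2_S (z : ℍ) : (E2 ∣[(2 : ℤ)] S) z = E2 z + 12 * (2 * π * I)⁻¹ / z := by
  rw [E2_slash_action]
  simp only [Pi.sub_apply, Pi.smul_apply, D2_S, riemannZeta_two, smul_eq_mul]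
  have hz := z.ne_zero
  have hπ : (π : ℂ) ≠ 0 := by exact_mod_cast Real.pi_ne_zero
  field_simp
  ring_nf
  simp only [I_sq]
  ring

lemma Ord.serre {n : ℕ} {F : ℍ → ℂ} {c : ℂ} (h : Ord n F c) (k : ℂ) :
    Ord n (serreDerivative k F) ((n - k / 12) * c) :=
  (h.deriv.sub ((ord_E2.zero_mul h).smul (k / 12))).congr
    (fun τ => by simp [serreDerivative]; ring) (by ring)

lemma serre_slS {k : ℤ} {F : ℍ → ℂ} (hF : MDiff F) {j : ℤ} (hj : j = k + 2) :
    serreDerivative k F ∣[j] S = serreDerivative k (F ∣[k] S) :=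
  hj ▸ serreDerivative_slash_equivariant hF

lemma mul_slS {k₁ k₂ k : ℤ} (hk : k = k₁ + k₂) (F G : ℍ → ℂ) :
    (F * G) ∣[k] S = (F ∣[k₁] S) * (G ∣[k₂] S) := hk ▸ mul_slash_SL2 k₁ k₂ S F G

lemma sub_slS (k : ℤ) (F G : ℍ → ℂ) : (F - G) ∣[k] S = F ∣[k] S - G ∣[k] S := by
  ext z; simp only [slS_apply, Pi.sub_apply]; ring

lemma add_slS (k : ℤ) (F G : ℍ → ℂ) : (F + G) ∣[k] S = F ∣[k] S + G ∣[k] S := by
  ext z; simp only [slS_apply, Pi.add_apply]; ring

lemma smul_slS (k : ℤ) (a : ℂ) (F : ℍ → ℂ) : (a • F) ∣[k] S = a • F ∣[k] S := by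
  ext z; simp only [slS_apply, Pi.smul_apply, smul_eq_mul]; ring

lemma D_slS {k : ℤ} {F : ℍ → ℂ} (hF : MDiff F) (z : ℍ) :
    D (F ∣[k] S) z = (D F ∣[k + 2] S) z - k * (2 * π * I)⁻¹ / z * (F ∣[k] S) z := by
  rw [normalizedDerivOfComplex_SL_slash hF, Pi.sub_apply, denom_S]
  simp only [S, Matrix.SpecialLinearGroup.coe_mk, Matrix.of_apply, Matrix.cons_val',
    Matrix.cons_val_zero, Matrix.cons_val_one, Matrix.cons_val_fin_one, Int.cast_one]
  ring

lemma ram4 (z : ℍ) : D E4 z = (E2 z * E4 z - E6 z) / 3 := by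
  have h1 : Ord 0 (serreDerivative (4 : ℤ) E4 + (1 / 3 : ℂ) • E6) 0 :=
    ((ord_E4.serre _).add (ord_E6.smul _)).congr (fun _ => rfl) (by norm_num)
  obtain ⟨c, h2⟩ := h1.succ
  have := sturm 6 h2 (by
    rw [add_slS, smul_slS, serre_slS ord_E4.mdiff (by norm_num), E4_S]
    exact congrArg (fun G => _ + (1 / 3 : ℂ) • G) E6_S) (by norm_num)
  have := congrFun this z
  simp only [Pi.add_apply, serreDerivative, Pi.smul_apply, smul_eq_mul, Pi.zero_apply] at this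
  push_cast at this
  linear_combination this

lemma ram6 (z : ℍ) : D E6 z = (E2 z * E6 z - E4 z ^ 2) / 2 := by
  have h1 : Ord 0 (serreDerivative (6 : ℤ) E6 + (1 / 2 : ℂ) • (E4 * E4)) 0 :=
    ((ord_E6.serre _).add ((ord_E4.mul ord_E4).smul _)).congr (fun _ => rfl) (by norm_num)
  obtain ⟨c, h2⟩ := h1.succ
  have := sturm 8 h2 (by
    rw [add_slS, smul_slS, serre_slS ord_E6.mdiff (by norm_num), E6_S,
      mul_slS (k₁ := 4) (k₂ := 4) (by norm_num), E4_S]) (by norm_num)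
  have := congrFun this z
  simp only [Pi.add_apply, serreDerivative, Pi.smul_apply, smul_eq_mul, Pi.zero_apply,
    Pi.mul_apply] at this
  push_cast at this
  linear_combination this

lemma ramD (z : ℍ) : D Dl z = E2 z * Dl z := by
  have h1 : Ord 1 (serreDerivative (12 : ℤ) Dl) 0 :=
    (ord_Dl.serre _).congr (fun _ => rfl) (by norm_num)
  obtain ⟨c, h2⟩ := h1.succ
  have := sturm 14 h2 (by rw [serre_slS ord_Dl.mdiff (by norm_num), Dl_S]) (by norm_num)
  have := congrFun this z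
  simp only [serreDerivative, Pi.zero_apply] at this
  push_cast at this
  linear_combination this

/-- the coordinate function -/
def zf : ℍ → ℂ := fun z => z

lemma mdiff_zf : MDiff zf := mdifferentiable_coe

lemma D_zf (z : ℍ) : D zf z = (2 * π * I)⁻¹ := by
  have : zf ∘ ofComplex =ᶠ[𝓝 (z : ℂ)] id := by
    filter_upwards [isOpen_upperHalfPlaneSet.mem_nhds z.im_pos] with w hw
    simp [zf, ofComplex_apply_of_im_pos hw]
  rw [normalizedDerivOfComplex, this.deriv_eq]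
  simp

lemma ram2 (z : ℍ) : D E2 z = (E2 z ^ 2 - E4 z) / 12 := by
  have h1 : Ord 0 (D E2 - (1 / 12 : ℂ) • (E2 * E2) + (1 / 12 : ℂ) • E4) 0 :=
    ((ord_E2.deriv.sub ((ord_E2.mul ord_E2).smul _)).add (ord_E4.smul _)).congr
      (fun _ => rfl) (by norm_num)
  obtain ⟨c, h2⟩ := h1.succ
  have hm := mdiff_slS ord_E2.mdiff 2
  have e1 : zf * (E2 ∣[(2 : ℤ)] S) = zf * E2 + fun _ => 12 * (2 * π * I)⁻¹ := by
    ext w
    have hw := w.ne_zero
    simp only [Pi.mul_apply, Pi.add_apply, E2_S, zf]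
    field_simp
  have := sturm 4 h2 (by
    rw [add_slS, sub_slS, smul_slS, smul_slS, mul_slS (k₁ := 2) (k₂ := 2) (by norm_num)]
    ext w
    have hw := w.ne_zero
    have e2 := congrFun (congrArg D e1) w
    rw [normalizedDerivOfComplex_mul _ _ mdiff_zf hm, normalizedDerivOfComplex_add _ _
      (mdiff_zf.mul ord_E2.mdiff) mdifferentiable_const,
      normalizedDerivOfComplex_mul _ _ mdiff_zf ord_E2.mdiff, normalizedDerivOfComplex_const] at e2
    have e3 := D_slS (k := 2) ord_E2.mdiff w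
    have e4 := congrFun E4_S w
    simp only [Pi.add_apply, Pi.mul_apply, D_zf, e3, E2_S, zf, Pi.zero_apply] at e2
    simp only [Pi.add_apply, Pi.sub_apply, Pi.smul_apply, Pi.mul_apply, E2_S, smul_eq_mul,
      Nat.cast_ofNat, e4]
    generalize (2 * π * I : ℂ)⁻¹ = a at e2 ⊢
    push_cast at e2
    field_simp at e2 ⊢
    linear_combination 12 * e2) (by norm_num)
  have := congrFun this z
  simp only [Pi.add_apply, Pi.sub_apply, Pi.smul_apply, smul_eq_mul, Pi.zero_apply,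
    Pi.mul_apply] at this
  linear_combination this

/-! ### Depth-one forms -/

/-- `Z` and `Z|S - z Z` both have q-expansions -/
def Good (k : ℤ) (Z : ℍ → ℂ) : Prop :=
  (∃ c, Ord 0 Z c) ∧ ∃ c, Ord 0 (Z ∣[k] S - zf * Z) c

namespace Good

variable {k : ℤ} {Z Z' : ℍ → ℂ}

lemma mdiff (h : Good k Z) : MDiff Z := h.1.choose_spec.mdiff

lemma sub (h : Good k Z) (h' : Good k Z') : Good k (Z - Z') := by
  obtain ⟨⟨_, h1⟩, _, h2⟩ := h
  obtain ⟨⟨_, h1'⟩, _, h2'⟩ := h'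
  refine ⟨⟨_, h1.sub h1'⟩, _, (h2.sub h2').congr (fun τ => ?_) rfl⟩
  simp only [sub_slS, Pi.sub_apply, Pi.mul_apply]; ring

lemma smul (h : Good k Z) (a : ℂ) : Good k (a • Z) := by
  obtain ⟨⟨_, h1⟩, _, h2⟩ := h
  refine ⟨⟨_, h1.smul a⟩, _, (h2.smul a).congr (fun τ => ?_) rfl⟩
  simp only [smul_slS, Pi.sub_apply, Pi.mul_apply, Pi.smul_apply, smul_eq_mul]; ring

lemma mul (h : Good k Z) {M : ℍ → ℂ} {c : ℂ} {j l : ℤ} (hM : Ord 0 M c) (hS : M ∣[j] S = M)
    (hl : l = j + k) : Good l (M * Z) := by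
  obtain ⟨⟨_, h1⟩, _, h2⟩ := h
  refine ⟨⟨_, hM.mul h1⟩, _, (hM.mul h2).congr (fun τ => ?_) rfl⟩
  simp only [mul_slS hl, hS, Pi.sub_apply, Pi.mul_apply]; ring

lemma serre (h : Good k Z) {l : ℤ} (hl : l = k + 2) : Good l (serreDerivative k Z) := by
  have hZ := h.mdiff
  obtain ⟨⟨_, h1⟩, _, h2⟩ := h
  refine ⟨⟨_, h1.serre _⟩, _, ((h2.serre k).add (h1.smul (2 * π * I)⁻¹)).congr (fun τ => ?_) rfl⟩
  rw [serre_slS hZ hl, serreDerivative_sub _ _ _ (mdiff_slS hZ k) (mdiff_zf.mul hZ)]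
  simp only [serreDerivative, normalizedDerivOfComplex_mul _ _ mdiff_zf hZ, Pi.sub_apply,
    Pi.add_apply, Pi.mul_apply, D_zf, Pi.smul_apply, smul_eq_mul]
  ring

/-- the Wronskian of `Z` and `Z|S` -/
noncomputable def wr (k : ℤ) (Z : ℍ → ℂ) : ℍ → ℂ :=
  Z * serreDerivative k (Z ∣[k] S) - (Z ∣[k] S) * serreDerivative k Z

lemma wr_eq (hZ : MDiff Z) : wr k Z = (2 * π * I)⁻¹ • (Z * Z) +
    (Z * D (Z ∣[k] S - zf * Z) - (Z ∣[k] S - zf * Z) * D Z) := by
  ext τ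
  rw [normalizedDerivOfComplex_sub _ _ (mdiff_slS hZ k) (mdiff_zf.mul hZ)]
  simp only [wr, serreDerivative, normalizedDerivOfComplex_mul _ _ mdiff_zf hZ, Pi.sub_apply,
    Pi.add_apply, Pi.mul_apply, D_zf, Pi.smul_apply, smul_eq_mul]
  ring

lemma eq_zero_of_wr (h : Good k Z) (hw : wr k Z = 0) : Z = 0 := by
  by_contra hne
  have hZ := h.mdiff
  obtain ⟨⟨_, h1⟩, _, h2⟩ := h
  obtain ⟨n, c, hc, hn⟩ := h1.exists_ne hne
  rw [wr_eq hZ] at hw
  have hπ : (2 * π * I : ℂ)⁻¹ ≠ 0 := inv_ne_zero two_pi_I_ne_zero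
  rcases h2.exists_or n with ⟨b, hb⟩ | ⟨r, hr, b, hb0, hb⟩
  · have := ((hn.mul hn).smul (2 * π * I)⁻¹).add ((hn.mul hb.deriv).sub (hb.mul hn.deriv))
    rw [hw] at this
    have := this.unique (Ord.zero _)
    apply mul_ne_zero hπ (mul_ne_zero hc hc)
    linear_combination this
  · have h3 := hb.mul hn.deriv
    rw [add_comm] at h3
    have := (((hn.mul hn).of_lt (m := n + r) (by omega)).smul (2 * π * I)⁻¹).add
      ((hn.mul hb.deriv).sub h3)
    rw [hw] at this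
    have := this.unique (Ord.zero _)
    have hrn : (r : ℂ) - n ≠ 0 := sub_ne_zero.2 (by exact_mod_cast hr.ne)
    apply mul_ne_zero hrn (mul_ne_zero hc hb0)
    linear_combination this

lemma wr_slS (hZ : MDiff Z) (hk : Odd k) : wr k Z ∣[2 * k + 2] S = wr k Z := by
  have hY := mdiff_slS hZ k
  rw [wr, sub_slS, mul_slS (k₁ := k) (k₂ := k + 2) (by ring), mul_slS (k₁ := k) (k₂ := k + 2)
    (by ring), serre_slS hY rfl, serre_slS hZ rfl, slS_slS Z hk,
    show -Z = (-1 : ℂ) • Z by simp, serreDerivative_smul _ _ _ hZ]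
  ext τ
  simp only [Pi.sub_apply, Pi.mul_apply, Pi.smul_apply, smul_eq_mul]
  ring

/-- uniqueness: a depth-one form of weight `w` vanishing to order more than `w / 6` is zero -/
lemma eq_zero (w : ℕ) (hw : Even w) (hk : k = w - 1) (h : Good k Z) {n : ℕ} {c : ℂ}
    (hn : Ord n Z c) (hlt : w / 6 < n) : Z = 0 := by
  apply h.eq_zero_of_wr
  have hodd : Odd k := by
    rw [hk]; exact Even.sub_odd (by exact_mod_cast hw) odd_one
  obtain ⟨b, hb⟩ := h.2
  have h1 : ∃ c', Ord n (wr k Z) c' := by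
    rw [wr_eq h.mdiff]
    obtain ⟨c1, h1⟩ := (hn.mul hn).of_le (Nat.le_add_right n n)
    exact ⟨_, (h1.smul _).add ((hn.mul hb.deriv).sub (hb.zero_mul hn.deriv))⟩
  obtain ⟨c', h1⟩ := h1
  refine sturm (2 * w) h1 ?_ (by omega)
  have := wr_slS h.mdiff hodd
  rwa [show 2 * k + 2 = ((2 * w : ℕ) : ℤ) by push_cast; omega] at this

lemma unique (w : ℕ) (hw : Even w) (hk : k = w - 1) (h : Good k Z) (h' : Good k Z') {c : ℂ}
    (hn : Ord (w / 6) Z c) (hn' : Ord (w / 6) Z' c) : Z = Z' := by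
  obtain ⟨c', h1⟩ := ((hn.sub hn').congr (fun _ => rfl) (sub_self c).symm).succ
  exact sub_eq_zero.1 ((h.sub h').eq_zero w hw hk h1 (by omega))

end Good

/-- the Kaneko-Zagier operator -/
noncomputable def KZ (k : ℤ) (Z : ℍ → ℂ) : ℍ → ℂ :=
  serreDerivative (k + 2 : ℤ) (serreDerivative k Z) - ((k * (k + 2) / 144 : ℂ)) • (E4 * Z)

lemma KZ_slS {k : ℤ} {Z : ℍ → ℂ} (hZ : MDiff Z) : KZ k Z ∣[k + 4] S = KZ k (Z ∣[k] S) := by
  rw [KZ, KZ, sub_slS, smul_slS, mul_slS (k₁ := 4) (k₂ := k) (by ring), E4_S,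
    serre_slS (serreDerivative_mdifferentiable _ hZ) (by ring), serre_slS hZ rfl]

lemma KZ_apply {k : ℤ} {Z : ℍ → ℂ} (hZ : MDiff Z) (z : ℍ) : KZ k Z z =
    D (D Z) z - (k + 1) / 6 * E2 z * D Z z + k * (k + 1) / 12 * D E2 z * Z z := by
  have e : serreDerivative k Z = D Z - ((k : ℂ) / 12) • (E2 * Z) := by
    ext τ; simp [serreDerivative]; ring
  have hE := ord_E2.mdiff
  have hD := normalizedDerivOfComplex_mdifferentiable hZ
  simp only [KZ, Pi.sub_apply, Pi.smul_apply, Pi.mul_apply, smul_eq_mul]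
  rw [serreDerivative_apply, e, normalizedDerivOfComplex_sub _ _ hD ((hE.mul hZ).const_smul _),
    normalizedDerivOfComplex_smul _ _ (hE.mul hZ), normalizedDerivOfComplex_mul _ _ hE hZ]
  simp only [Pi.sub_apply, Pi.smul_apply, Pi.mul_apply, smul_eq_mul, Pi.add_apply, ram2]
  push_cast
  ring

lemma KZ_eq_zero {m : ℕ} {k : ℤ} (hk : k = 6 * m - 1) {Z : ℍ → ℂ} {c : ℂ} (h : Good k Z)
    (hn : Ord m Z c) : KZ k Z = 0 := by
  have h1 : Good (k + 4) (KZ k Z) :=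
    ((h.serre rfl).serre (by ring)).sub ((h.mul ord_E4 E4_S (by ring)).smul _)
  have h2 : Ord m (KZ k Z) 0 :=
    (((hn.serre _).serre _).sub ((ord_E4.zero_mul hn).smul _)).congr (fun _ => rfl) (by
      rw [hk]; push_cast; ring)
  obtain ⟨c', h3⟩ := h2.succ
  exact h1.eq_zero (6 * m + 4) ⟨3 * m + 2, by ring⟩ (by rw [hk]; push_cast; ring) h3 (by omega)

lemma good_one : Good (-1) (fun _ => 1) := by
  refine ⟨⟨_, Ord.const 1⟩, _, (Ord.zero 0).congr (fun τ => ?_) rfl⟩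
  simp [slS_apply, zf]

lemma E4_ne : E4 ≠ 0 := fun h => one_ne_zero (ord_E4.unique (h ▸ Ord.zero 0))

lemma exists_six (m : ℕ) : ∃ X, Good (6 * m - 1) X ∧ Ord m X 1 := by
  induction m with
  | zero => exact ⟨_, by simpa using good_one, Ord.const 1⟩
  | succ m ih =>
    obtain ⟨X, hX, hm⟩ := ih
    set k : ℤ := 6 * m - 1 with hk
    have hodd : Odd k := ⟨3 * m - 1, by rw [hk]; ring⟩
    let Z := E4 * serreDerivative k X - ((k + 2) / 12 : ℂ) • (E6 * X)
    have hZ : Good (k + 6) Z :=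
      ((hX.serre rfl).mul ord_E4 E4_S (by ring)).sub ((hX.mul ord_E6 E6_S (by ring)).smul _)
    have h0 : Ord m Z 0 :=
      ((ord_E4.zero_mul (hm.serre _)).sub ((ord_E6.zero_mul hm).smul _)).congr (fun _ => rfl) (by
        rw [hk]; push_cast; ring)
    obtain ⟨c, h1⟩ := h0.succ
    have hc : c ≠ 0 := by
      rintro rfl
      obtain ⟨c', h2⟩ := h1.succ
      have hZ0 : Z = 0 := hZ.eq_zero (6 * m + 6) ⟨3 * m + 3, by ring⟩
        (by rw [hk]; push_cast; ring) h2 (by omega)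
      have hY0 : Z ∣[k + 6] S = 0 := by rw [hZ0]; ext; simp [slS_apply]
      simp only [Z] at hY0
      rw [sub_slS, smul_slS, mul_slS (k₁ := 4) (k₂ := k + 2) (by ring),
        mul_slS (k₁ := 6) (k₂ := k) (by ring), E4_S, E6_S, serre_slS hX.mdiff rfl] at hY0
      have hw : E4 * Good.wr k X = 0 := by
        ext τ
        have e1 := congrFun hZ0 τ
        have e2 := congrFun hY0 τ
        simp only [Z, Good.wr, Pi.sub_apply, Pi.mul_apply, Pi.smul_apply, smul_eq_mul,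
          Pi.zero_apply] at e1 e2 ⊢
        linear_combination X τ * e2 - (X ∣[k] S) τ * e1
      have hw0 : Good.wr k X = 0 := by
        by_contra hne
        obtain ⟨b, hb⟩ := hX.2
        have : ∃ c', Ord 0 (Good.wr k X) c' := by
          obtain ⟨c0, h00⟩ := hX.1
          rw [Good.wr_eq hX.mdiff]
          exact ⟨_, ((h00.mul h00).smul _).add ((h00.mul hb.deriv).sub (hb.mul h00.deriv))⟩
        obtain ⟨c', h3⟩ := this
        obtain ⟨r, b', hb', h4⟩ := h3.exists_ne hne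
        have h5 := ord_E4.zero_mul h4
        rw [hw] at h5
        exact hb' (by simpa using h5.unique (Ord.zero _))
      have := hX.eq_zero_of_wr hw0
      rw [this] at hm
      exact one_ne_zero (hm.unique (Ord.zero _))
    refine ⟨c⁻¹ • Z, ?_, (h1.smul c⁻¹).congr (fun _ => rfl) (inv_mul_cancel₀ hc).symm⟩
    have := hZ.smul c⁻¹
    rwa [show k + 6 = 6 * ((m + 1 : ℕ) : ℤ) - 1 by rw [hk]; push_cast; ring] at this

lemma good_of_mf {w : ℤ} (f : ModularForm 𝒮ℒ w) (g : ModularForm 𝒮ℒ (w - 2)) :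
    Good (w - 1) (f + E2 * g) := by
  refine ⟨⟨_, (Ord.of_mf f).add (ord_E2.mul (Ord.of_mf g))⟩, _,
    ((Ord.of_mf g).smul (12 * (2 * π * I)⁻¹)).congr (fun τ => ?_) rfl⟩
  have e1 := congrFun (mf_slS f) τ
  have e2 := congrFun (mf_slS g) τ
  have e3 := E2_S τ
  have hz := τ.ne_zero
  simp only [slS_apply, Pi.sub_apply, Pi.add_apply, Pi.mul_apply, Pi.smul_apply, smul_eq_mul,
    zf] at e1 e2 e3 ⊢
  rw [show -(w - 1) = -w + 1 by ring, zpow_add₀ hz, zpow_one]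
  rw [show -(w - 2) = -w + 2 by ring, zpow_add₀ hz] at e2
  rw [← e1, ← e2]
  have e4 : E2 (S • τ) = (E2 τ + 12 * (2 * π * I)⁻¹ / τ) * τ ^ 2 := by
    rw [← e3, zpow_neg]; field_simp
  rw [e4]
  generalize (2 * π * I : ℂ)⁻¹ = a
  have : (τ : ℂ) ^ (2 : ℤ) = τ ^ 2 := rfl
  rw [this]
  field_simp
  ring

lemma mf_of_good {w : ℤ} (hw : Even w) {Z : ℍ → ℂ} (h : Good (w - 1) Z) :
    ∃ (f : ModularForm 𝒮ℒ w) (g : ModularForm 𝒮ℒ (w - 2)), Z = f + E2 * g := by
  obtain ⟨⟨_, h1⟩, _, h2⟩ := h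
  have hodd : Odd (w - 1) := hw.sub_odd odd_one
  set a : ℂ := 12 * (2 * π * I)⁻¹ with ha
  have ha0 : a ≠ 0 := mul_ne_zero (by norm_num) (inv_ne_zero two_pi_I_ne_zero)
  let g := a⁻¹ • (Z ∣[w - 1] S - zf * Z)
  have hg : Ord 0 g _ := h2.smul a⁻¹
  have hgS : g ∣[w - 2] S = g := by
    ext τ
    have e1 := congrFun (slS_slS Z hodd) τ
    have hz := τ.ne_zero
    rw [slS_apply] at e1
    simp only [g, smul_slS, sub_slS, Pi.smul_apply, Pi.sub_apply, Pi.mul_apply]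
    congr 1
    rw [slS_apply, slS_apply (zf * Z), slS_apply Z _ τ, show -(w - 2) = -(w - 1) + 1 by ring,
      zpow_add₀ hz, zpow_one, ← mul_assoc, e1]
    simp only [zf, Pi.mul_apply, coe_S_smul, Pi.neg_apply]
    field_simp
    ring
  have hf : Ord 0 (Z - E2 * g) _ := h1.sub (ord_E2.mul hg)
  have hfS : (Z - E2 * g) ∣[w] S = Z - E2 * g := by
    rw [sub_slS, mul_slS (k₁ := 2) (k₂ := w - 2) (by ring), hgS]
    ext τ
    have hz := τ.ne_zero
    simp only [Pi.sub_apply, Pi.mul_apply, E2_S, g, Pi.smul_apply, smul_eq_mul, zf, slS_apply Z]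
    rw [show -(w - 1) = -w + 1 by ring, zpow_add₀ hz, zpow_one, ← ha]
    field_simp
    ring
  refine ⟨mkMF w hf hfS, mkMF (w - 2) hg hgS, ?_⟩
  ext τ
  change Z τ = (Z - E2 * g) τ + (E2 * g) τ
  simp

end Pool.Agent.Lib.MP_d6a497_nt
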