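import Pool.Agent.Lib.MP_d6a497_nt.Alg

-- part Pool.Agent.Lib.MP_d6a497_nt.Series
section

/-! Restriction to the imaginary axis and the q-series inequalities. -/

namespace Pool.Agent.Lib.MP_d6a497_nt

open UpperHalfPlane hiding I
open Complex Filter Metric Function Derivative EisensteinSeries ModularForm ModularGroup
open ArithmeticFunction
open scoped Manifold MatrixGroups ModularForm Topology Real sigma

/-- the point `i t` -/
noncomputable def ax (t : ℝ) : ℍ := ofComplex (I * t)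

lemma ax_eq {t : ℝ} (ht : 0 < t) : ax t = ⟨I * t, by simpa using ht⟩ :=
  ofComplex_apply_of_im_pos _

lemma coe_ax {t : ℝ} (ht : 0 < t) : (ax t : ℂ) = I * t := by rw [ax_eq ht]

lemma qq_ax {t : ℝ} (ht : 0 < t) : qq (ax t) = (Real.exp (-2 * π * t) : ℝ) := by
  rw [qq, coe_ax ht, Periodic.qParam, ofReal_exp]
  congr 1
  push_cast
  linear_combination (2 * π * t : ℂ) * I_sq

lemma S_ax {t : ℝ} (ht : 0 < t) : S • ax t = ax t⁻¹ := by
  ext
  rw [coe_S_smul, coe_ax ht, coe_ax (inv_pos.2 ht)]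
  simp [mul_comm]

lemma hasDerivAt_ax {F : ℍ → ℂ} (hF : MDiff F) {t : ℝ} (ht : 0 < t) :
    HasDerivAt (fun s : ℝ => F (ax s)) (-2 * π * D F (ax t)) t := by
  have h1 : HasDerivAt (F ∘ ofComplex) (deriv (F ∘ ofComplex) (ax t)) (I * t) := by
    rw [← coe_ax ht]
    exact (UpperHalfPlane.mdifferentiableAt_iff.1 (hF (ax t))).hasDerivAt
  have h2 : HasDerivAt (fun z : ℂ => (F ∘ ofComplex) (I * z)) (deriv (F ∘ ofComplex) (ax t) * I)
      (t : ℂ) := by
    exact (h1.comp (t : ℂ) ((hasDerivAt_id (t : ℂ)).const_mul I)).congr_deriv (by ring)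
  refine h2.comp_ofReal.congr_deriv ?_
  rw [normalizedDerivOfComplex]
  have hπ : (π : ℂ) ≠ 0 := by exact_mod_cast Real.pi_ne_zero
  field_simp
  rw [I_sq]; ring

/-- real part on the imaginary axis -/
noncomputable def rp (F : ℍ → ℂ) (t : ℝ) : ℝ := (F (ax t)).re

/-- imaginary part on the imaginary axis -/
noncomputable def ip (F : ℍ → ℂ) (t : ℝ) : ℝ := (F (ax t)).im

lemma hasDerivAt_rp {F : ℍ → ℂ} (hF : MDiff F) {t : ℝ} (ht : 0 < t) :
    HasDerivAt (rp F) (-2 * π * rp (D F) t) t := by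
  have := reCLM.hasFDerivAt.comp_hasDerivAt t (hasDerivAt_ax hF ht)
  refine this.congr_deriv ?_
  simp [rp]

lemma hasDerivAt_ip {F : ℍ → ℂ} (hF : MDiff F) {t : ℝ} (ht : 0 < t) :
    HasDerivAt (ip F) (-2 * π * ip (D F) t) t := by
  have := imCLM.hasFDerivAt.comp_hasDerivAt t (hasDerivAt_ax hF ht)
  refine this.congr_deriv ?_
  simp [ip]

/-- `F` is real on the imaginary axis -/
def IsRe (F : ℍ → ℂ) : Prop := ∀ t, 0 < t → (F (ax t)).im = 0

lemma IsRe.eq {F : ℍ → ℂ} (h : IsRe F) {t : ℝ} (ht : 0 < t) : F (ax t) = (rp F t : ℝ) :=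
  Complex.ext rfl (by simpa using h t ht)

lemma IsRe.deriv {F : ℍ → ℂ} (h : IsRe F) (hF : MDiff F) : IsRe (D F) := by
  intro t ht
  have h1 := hasDerivAt_ip hF ht
  have h2 : HasDerivAt (ip F) 0 t := by
    refine (hasDerivAt_const t (0 : ℝ)).congr_of_eventuallyEq ?_
    filter_upwards [lt_mem_nhds ht] with s hs using h s hs
  have := h1.unique h2
  have hπ := Real.pi_pos
  simpa [ip, hπ.ne'] using this

lemma hasSum_rp {F : ℍ → ℂ} {r : ℕ → ℝ} (h : ∀ τ, HasSum (fun m => (r m : ℂ) * qq τ ^ m) (F τ))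
    {t : ℝ} (ht : 0 < t) : HasSum (fun m => r m * Real.exp (-2 * π * t) ^ m) (rp F t) := by
  have := hasSum_re (h (ax t))
  simp only [qq_ax ht, ← ofReal_pow, ← ofReal_mul, ofReal_re] at this
  exact this

lemma isRe_of_hasSum {F : ℍ → ℂ} {r : ℕ → ℝ}
    (h : ∀ τ, HasSum (fun m => (r m : ℂ) * qq τ ^ m) (F τ)) : IsRe F := by
  intro t ht
  have := hasSum_im (h (ax t))
  simp only [qq_ax ht, ← ofReal_pow, ← ofReal_mul, ofReal_im] at this
  exact this.unique hasSum_zero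

lemma hasSum_D' {F : ℍ → ℂ} {r : ℕ → ℝ} (h : ∀ τ, HasSum (fun m => (r m : ℂ) * qq τ ^ m) (F τ))
    (τ : ℍ) : HasSum (fun m : ℕ => ((m * r m : ℝ) : ℂ) * qq τ ^ m) (D F τ) := by
  simpa using hasSum_D h τ

lemma hasSum_E2' (τ : ℍ) : HasSum (fun m : ℕ =>
    ((if m = 0 then 1 else -24 * σ 1 m : ℝ) : ℂ) * qq τ ^ m) (E2 τ) := by
  simpa [apply_ite] using hasSum_E2 τ

lemma hasSum_E4' (τ : ℍ) : HasSum (fun m : ℕ =>
    ((if m = 0 then 1 else 240 * σ 3 m : ℝ) : ℂ) * qq τ ^ m) (E4 τ) := by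
  simpa [apply_ite] using hasSum_E4 τ

lemma hasSum_E6' (τ : ℍ) : HasSum (fun m : ℕ =>
    ((if m = 0 then 1 else -504 * σ 5 m : ℝ) : ℂ) * qq τ ^ m) (E6 τ) := by
  simpa [apply_ite] using hasSum_E6 τ

lemma isRe_E2 : IsRe E2 := isRe_of_hasSum hasSum_E2'
lemma isRe_E4 : IsRe E4 := isRe_of_hasSum hasSum_E4'
lemma isRe_E6 : IsRe E6 := isRe_of_hasSum hasSum_E6'

lemma isRe_Dl : IsRe Dl := by
  intro t ht
  have h := discriminant_eq_E₄_cube_sub_E₆_sq (ax t)
  change Dl (ax t) = (E4 (ax t) ^ 3 - E6 (ax t) ^ 2) / 1728 at h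
  rw [h, isRe_E4.eq ht, isRe_E6.eq ht]
  norm_cast

lemma sigma3_le (n : ℕ) : 4 * σ 3 n ≤ n ^ 2 * (n + 1) ^ 2 := by
  have h1 : σ 3 n ≤ ∑ d ∈ Finset.range (n + 1), d ^ 3 := by
    rw [sigma_apply]
    exact Finset.sum_le_sum_of_subset fun d hd =>
      Finset.mem_range.2 (Nat.lt_succ_of_le (Nat.divisor_le hd))
  have h2 : ∀ n : ℕ, 4 * ∑ d ∈ Finset.range (n + 1), d ^ 3 = n ^ 2 * (n + 1) ^ 2 := by
    intro n
    induction n with
    | zero => simp
    | succ n ih => rw [Finset.sum_range_succ, mul_add, ih]; ring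
  rw [← h2]; omega

lemma le_sigma5 (n : ℕ) : n ^ 5 ≤ σ 5 n := by
  rcases eq_or_ne n 0 with rfl | hn
  · simp
  · rw [sigma_apply]
    exact Finset.single_le_sum (f := fun d => d ^ 5) (fun _ _ => Nat.zero_le _)
      (Nat.mem_divisors_self n hn)

lemma sigma_ineq (n : ℕ) : 124 * ((n + 2) * σ 3 (n + 2)) ≤ 105 * σ 5 (n + 2) := by
  have h1 := sigma3_le (n + 2)
  have h2 := le_sigma5 (n + 2)
  have h3 : 31 * (n + 2 + 1) ^ 2 ≤ 105 * (n + 2) ^ 2 := by
    have : 105 * (n + 2) ^ 2 = 31 * (n + 2 + 1) ^ 2 + (74 * n ^ 2 + 234 * n + 141) := by ring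
    omega
  calc 124 * ((n + 2) * σ 3 (n + 2)) = 31 * (n + 2) * (4 * σ 3 (n + 2)) := by ring
    _ ≤ 31 * (n + 2) * ((n + 2) ^ 2 * (n + 2 + 1) ^ 2) := by gcongr
    _ = (n + 2) ^ 3 * (31 * (n + 2 + 1) ^ 2) := by ring
    _ ≤ (n + 2) ^ 3 * (105 * (n + 2) ^ 2) := by gcongr
    _ = 105 * (n + 2) ^ 5 := by ring
    _ ≤ _ := by gcongr

lemma DE2_nonpos {t : ℝ} (ht : 0 < t) : rp (D E2) t ≤ 0 := by
  refine hasSum_le (fun m => ?_) (hasSum_rp (hasSum_D' hasSum_E2') ht) hasSum_zero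
  have := Real.exp_pos (-2 * π * t)
  split_ifs with h
  · simp [h]
  · have : 0 ≤ (m : ℝ) * (24 * σ 1 m) * Real.exp (-2 * π * t) ^ m := by positivity
    linarith

/-- the four tails of the q-series -/
lemma tails {t : ℝ} (ht : 0 < t) : ∃ x s a b c : ℝ, 0 < x ∧
    rp E4 t = 1 + 240 * (x + s) ∧ rp (D E4) t = 240 * (x + a) ∧ rp (D (D E4)) t = 240 * (x + b) ∧
    rp (D E6) t = -504 * (x + c) ∧ 0 ≤ s ∧ 0 ≤ a ∧ 0 ≤ b ∧ 124 * b ≤ 105 * c ∧ a ^ 2 ≤ s * b ∧
    2466 * x ^ 2 ≤ 105 * c - 104 * b - 40 * a ∧ 3186 * x ^ 2 ≤ 105 * c - 104 * b := by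
  set x := Real.exp (-2 * π * t) with hx
  have hx0 : 0 < x := Real.exp_pos _
  have h1 := (hasSum_nat_add_iff' 2).2 (hasSum_rp hasSum_E4' ht)
  have h2 := (hasSum_nat_add_iff' 2).2 (hasSum_rp (hasSum_D' hasSum_E4') ht)
  have h3 := (hasSum_nat_add_iff' 2).2 (hasSum_rp (hasSum_D' (hasSum_D' hasSum_E4')) ht)
  have h4 := (hasSum_nat_add_iff' 2).2 (hasSum_rp (hasSum_D' hasSum_E6') ht)
  simp only [← hx, Finset.sum_range_succ, Finset.sum_range_zero, Nat.add_eq_zero_iff,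
    OfNat.ofNat_ne_zero, and_false, if_false, if_true, one_ne_zero, sigma_one] at h1 h2 h3 h4
  have hs : HasSum (fun n : ℕ => (σ 3 (n + 2) : ℝ) * x ^ (n + 2)) ((rp E4 t - 1) / 240 - x) := by
    convert! h1.div_const 240 using 1
    · ext n; ring
    · push_cast; ring
  have ha : HasSum (fun n : ℕ => ((n : ℝ) + 2) * (σ 3 (n + 2) : ℝ) * x ^ (n + 2))
      (rp (D E4) t / 240 - x) := by
    convert! h2.div_const 240 using 1
    · ext n; push_cast; ring
    · push_cast; ring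
  have hb : HasSum (fun n : ℕ => ((n : ℝ) + 2) ^ 2 * (σ 3 (n + 2) : ℝ) * x ^ (n + 2))
      (rp (D (D E4)) t / 240 - x) := by
    convert! h3.div_const 240 using 1
    · ext n; push_cast; ring
    · push_cast; ring
  have hc : HasSum (fun n : ℕ => ((n : ℝ) + 2) * (σ 5 (n + 2) : ℝ) * x ^ (n + 2))
      (rp (D E6) t / (-504) - x) := by
    convert! h4.div_const (-504) using 1
    · ext n; push_cast; ring
    · push_cast; ring
  have key : ∀ n : ℕ, 124 * (((n : ℝ) + 2) * σ 3 (n + 2)) ≤ 105 * (σ 5 (n + 2) : ℝ) := by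
    intro n; exact_mod_cast sigma_ineq n
  have hs0 : 0 ≤ (rp E4 t - 1) / 240 - x := hs.nonneg fun n => by positivity
  have ha0 : 0 ≤ rp (D E4) t / 240 - x := ha.nonneg fun n => by positivity
  have hb0 : 0 ≤ rp (D (D E4)) t / 240 - x := hb.nonneg fun n => by positivity
  have s32 : σ 3 2 = 9 := by decide
  have s52 : σ 5 2 = 33 := by decide
  refine ⟨x, _, _, _, rp (D E6) t / (-504) - x, hx0, by ring, by ring, by ring, by ring, hs0, ha0, hb0, ?_, ?_, ?_, ?_⟩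
  · refine hasSum_le (fun n => ?_) (hb.mul_left 124) (hc.mul_left 105)
    have : 0 ≤ ((n : ℝ) + 2) * x ^ (n + 2) := by positivity
    nlinarith [mul_le_mul_of_nonneg_left (key n) this]
  · generalize (rp E4 t - 1) / 240 - x = s at *
    generalize rp (D E4) t / 240 - x = a at *
    generalize rp (D (D E4)) t / 240 - x = b at *
    have hq : ∀ l : ℝ, 0 ≤ s * (l * l) + (-2 * a) * l + b := by
      intro l
      refine (((hs.mul_right (l * l)).add ((ha.mul_left (-2)).mul_right l)).add hb).nonneg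
        fun n => ?_
      have : 0 ≤ (l - (n + 2)) ^ 2 * (σ 3 (n + 2) : ℝ) * x ^ (n + 2) := by positivity
      nlinarith
    have := discrim_le_zero hq
    rw [discrim] at this
    nlinarith
  · have := le_hasSum (((hc.mul_left 105).sub (hb.mul_left 104)).sub (ha.mul_left 40)) 0
      (fun n _ => by
        have h0 : 0 ≤ ((n : ℝ) + 2) * x ^ (n + 2) := by positivity
        have h5 : 0 ≤ (n : ℝ) * (((n : ℝ) + 2) * x ^ (n + 2) * σ 3 (n + 2)) := by positivity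
        nlinarith [mul_le_mul_of_nonneg_left (key n) h0])
    simp only [zero_add, s32, s52] at this
    push_cast at this
    linarith
  · have := le_hasSum ((hc.mul_left 105).sub (hb.mul_left 104)) 0
      (fun n _ => by
        have h0 : 0 ≤ ((n : ℝ) + 2) * x ^ (n + 2) := by positivity
        have h5 : 0 ≤ ((n : ℝ) + 2) * (((n : ℝ) + 2) * x ^ (n + 2) * σ 3 (n + 2)) := by positivity
        nlinarith [mul_le_mul_of_nonneg_left (key n) h0])
    simp only [zero_add, s32, s52] at this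
    push_cast at this
    linarith

lemma one_le_E4 {t : ℝ} (ht : 0 < t) : 1 ≤ rp E4 t := by
  obtain ⟨x, s, a, b, c, hx, h1, -, -, -, hs, -⟩ := tails ht
  rw [h1]; linarith

lemma ineq_bc {t : ℝ} (ht : 0 < t) :
    0 ≤ rp (D (D E4)) t ∧ 0 ≤ -rp (D E6) t / 3 - 7 / 10 * rp (D (D E4)) t := by
  obtain ⟨x, s, a, b, c, hx, -, -, h3, h4, -, -, hb, hc, -⟩ := tails ht
  rw [h3, h4]
  constructor <;> linarith

lemma ineq_P {t : ℝ} (ht : 0 < t) :
    2 * rp (D E4) t ^ 2 ≤ rp E4 t * (-(52 / 5) * rp (D (D E4)) t - 5 * rp (D E6) t) := by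
  obtain ⟨x, s, a, b, c, hx, h1, h2, h3, h4, hs, ha, hb, hc, h5, h6, h7⟩ := tails ht
  rw [h1, h2, h3, h4]
  have e1 : 0 ≤ x * (1 - 687 * x) ^ 2 := by positivity
  have e2 : 0 ≤ x * (105 * c - 104 * b - 40 * a - 2466 * x ^ 2) :=
    mul_nonneg hx.le (by linarith)
  have e3 : 0 ≤ s * (105 * c - 124 * b) := mul_nonneg hs (by linarith)
  have e4 : 0 ≤ s * x := mul_nonneg hs hx.le
  have e5 : 0 ≤ x ^ 3 := by positivity
  nlinarith

/-! real Ramanujan identities -/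

lemma rram2 {t : ℝ} (ht : 0 < t) : rp (D E2) t = (rp E2 t ^ 2 - rp E4 t) / 12 := by
  rw [rp, ram2, isRe_E2.eq ht, isRe_E4.eq ht]; norm_cast

lemma rram4 {t : ℝ} (ht : 0 < t) : rp (D E4) t = (rp E2 t * rp E4 t - rp E6 t) / 3 := by
  rw [rp, ram4, isRe_E2.eq ht, isRe_E4.eq ht, isRe_E6.eq ht]; norm_cast

lemma rram6 {t : ℝ} (ht : 0 < t) : rp (D E6) t = (rp E2 t * rp E6 t - rp E4 t ^ 2) / 2 := by
  rw [rp, ram6, isRe_E2.eq ht, isRe_E4.eq ht, isRe_E6.eq ht]; norm_cast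

lemma rramD {t : ℝ} (ht : 0 < t) : rp (D Dl) t = rp E2 t * rp Dl t := by
  rw [rp, ramD, isRe_E2.eq ht, isRe_Dl.eq ht]; norm_cast

lemma rram44 {t : ℝ} (ht : 0 < t) : rp (D (D E4)) t =
    (rp (D E2) t * rp E4 t + rp E2 t * rp (D E4) t - rp (D E6) t) / 3 := by
  have h1 := hasDerivAt_rp ord_E4.deriv.mdiff ht
  have h2 := ((((hasDerivAt_rp ord_E2.mdiff ht).mul (hasDerivAt_rp ord_E4.mdiff ht)).sub
    (hasDerivAt_rp ord_E6.mdiff ht)).div_const 3).congr_of_eventuallyEq (f₁ := rp (D E4)) (by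
      filter_upwards [lt_mem_nhds ht] with s hs using rram4 hs)
  have := h1.unique h2
  have hπ := Real.pi_pos
  apply mul_left_cancel₀ (show -2 * π ≠ 0 by linarith)
  linarith

lemma rram22 {t : ℝ} (ht : 0 < t) : rp (D (D E2)) t =
    (2 * rp E2 t * rp (D E2) t - rp (D E4) t) / 12 := by
  have h1 := hasDerivAt_rp ord_E2.deriv.mdiff ht
  have h2 := ((((hasDerivAt_rp ord_E2.mdiff ht).mul (hasDerivAt_rp ord_E2.mdiff ht)).sub
    (hasDerivAt_rp ord_E4.mdiff ht)).div_const 12).congr_of_eventuallyEq (f₁ := rp (D E2)) (by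
      filter_upwards [lt_mem_nhds ht] with s hs
      rw [rram2 hs, sq]; rfl)
  have := h1.unique h2
  have hπ := Real.pi_pos
  apply mul_left_cancel₀ (show -2 * π ≠ 0 by linarith)
  linarith

/-- barrier inequality for weights `6m+2` -/
lemma ineq_G {t : ℝ} (ht : 0 < t) {m : ℝ} (hm : 2 ≤ m) :
    0 ≤ (6 * m - 2) * rp (D E2) t ^ 2 + rp E2 t * rp (D (D E2)) t
      - m / 2 * rp (D E2) t * rp E2 t ^ 2 := by
  have h1 := (ineq_bc ht).2
  have h2 := DE2_nonpos ht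
  have h3 : 10 * rp (D E2) t ^ 2 + rp E2 t * rp (D (D E2)) t - rp (D E2) t * rp E2 t ^ 2 =
      -rp (D E6) t / 3 - 7 / 10 * rp (D (D E4)) t := by
    rw [rram44 ht, rram22 ht, rram2 ht, rram4 ht, rram6 ht]; ring
  have h4 : 0 ≤ (m - 2) * (6 * rp (D E2) t ^ 2 + (-rp (D E2) t) * rp E2 t ^ 2 / 2) :=
    mul_nonneg (by linarith) (by have := neg_nonneg.2 h2; positivity)
  nlinarith

/-- barrier inequality for weights `6m+4` -/
lemma ineq_F {t : ℝ} (ht : 0 < t) {m : ℝ} (hm : 2 ≤ m) :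
    2 * rp (D E4) t ^ 2 - rp E4 t * rp (D (D E4)) t + m * rp E2 t * rp E4 t * rp (D E4) t
      + m * (6 * m - 1) / 2 * rp (D E2) t * rp E4 t ^ 2 ≤ 0 := by
  obtain ⟨h0, h1⟩ := ineq_bc ht
  have h2 := DE2_nonpos ht
  have h3 := ineq_P ht
  have h4 := one_le_E4 ht
  have e1 : rp E2 t * rp (D E4) t = 12 / 5 * rp (D (D E4)) t + 2 / 3 * rp (D E6) t := by
    rw [rram44 ht, rram2 ht, rram4 ht, rram6 ht]; ring
  have e2 : rp (D E2) t * rp E4 t = 3 / 5 * rp (D (D E4)) t + 1 / 3 * rp (D E6) t := by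
    rw [rram44 ht, rram2 ht, rram4 ht, rram6 ht]; ring
  have h5 : 2 * (rp E2 t * rp (D E4) t) + 23 * (rp (D E2) t * rp E4 t) ≤ 0 := by
    rw [e1, e2]; linarith
  have h6 : 0 ≤ (m - 2) * rp E4 t * (-(2 * (rp E2 t * rp (D E4) t) + 23 * (rp (D E2) t * rp E4 t))) :=
    mul_nonneg (mul_nonneg (by linarith) (by linarith)) (by linarith)
  have h7 : 0 ≤ (m - 2) ^ 2 * (-rp (D E2) t) * rp E4 t ^ 2 := by
    have := neg_nonneg.2 h2; positivity
  have e3 : rp E4 t * (-(52 / 5) * rp (D (D E4)) t - 5 * rp (D E6) t) =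
      rp E4 t * (rp (D (D E4)) t - 2 * (rp E2 t * rp (D E4) t) - 11 * (rp (D E2) t * rp E4 t)) := by
    rw [e1, e2]; ring
  rw [e3] at h3
  nlinarith

end Pool.Agent.Lib.MP_d6a497_nt
end

-- part Pool.Agent.Lib.MP_d6a497_nt.Mono
section

/-! Wronskian comparison on the imaginary axis. -/

namespace Pool.Agent.Lib.MP_d6a497_nt

open UpperHalfPlane hiding I
open Complex Filter Metric Function Derivative EisensteinSeries ModularForm ModularGroup Set
open scoped Manifold MatrixGroups ModularForm Topology Real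

lemma antitoneOn_of {f f' : ℝ → ℝ} {s : Set ℝ} (hs : Convex ℝ s)
    (hd : ∀ t ∈ s, HasDerivAt f (f' t) t) (h0 : ∀ t ∈ interior s, f' t ≤ 0) : AntitoneOn f s :=
  antitoneOn_of_deriv_nonpos hs (fun t ht => (hd t ht).continuousAt.continuousWithinAt)
    (fun t ht => (hd t (interior_subset ht)).differentiableAt.differentiableWithinAt)
    (fun t ht => by rw [(hd t (interior_subset ht)).deriv]; exact h0 t ht)

lemma monotoneOn_of {f f' : ℝ → ℝ} {s : Set ℝ} (hs : Convex ℝ s)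
    (hd : ∀ t ∈ s, HasDerivAt f (f' t) t) (h0 : ∀ t ∈ interior s, 0 ≤ f' t) : MonotoneOn f s :=
  monotoneOn_of_deriv_nonneg hs (fun t ht => (hd t ht).continuousAt.continuousWithinAt)
    (fun t ht => (hd t (interior_subset ht)).differentiableAt.differentiableWithinAt)
    (fun t ht => by rw [(hd t (interior_subset ht)).deriv]; exact h0 t ht)

lemma nonpos_of_antitone {W : ℝ → ℝ} (h : AntitoneOn W (Ioi 0))
    (h0 : Tendsto W (𝓝[>] 0) (𝓝 0)) {t : ℝ} (ht : 0 < t) : W t ≤ 0 := by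
  refine ge_of_tendsto h0 ?_
  filter_upwards [Ioo_mem_nhdsGT ht] with s hs using h hs.1 ht hs.2.le

lemma tendsto_ax : Tendsto ax atTop atImInfty := by
  rw [atImInfty, tendsto_comap_iff]
  refine tendsto_id.congr' ?_
  filter_upwards [eventually_gt_atTop 0] with t ht
  simp [ax_eq ht, UpperHalfPlane.im]

lemma Dl_ne (τ : ℍ) : Dl τ ≠ 0 := discriminant_ne_zero τ

lemma Ord.tendsto_div {m : ℕ} {Z : ℍ → ℂ} {c : ℂ} (h : Ord m Z c) :
    Tendsto (fun τ => Z τ / Dl τ ^ m) atImInfty (𝓝 c) := by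
  have h1 := (ord_Dl.pow m).tendsto
  simp only [mul_one, one_pow] at h1
  have := h.tendsto.div h1 one_ne_zero
  rw [div_one] at this
  refine this.congr fun τ => ?_
  have := qq_ne τ
  have := Dl_ne τ
  simp only [Pi.div_apply, Pi.pow_apply]
  field_simp

lemma rp_Dl_ne {t : ℝ} (ht : 0 < t) : rp Dl t ≠ 0 := by
  intro h
  apply Dl_ne (ax t)
  rw [isRe_Dl.eq ht, h]; simp

lemma rp_Dl_pos {t : ℝ} (ht : 0 < t) : 0 < rp Dl t := by
  have h1 := (Complex.continuous_re.tendsto _).comp (ord_Dl.tendsto.comp tendsto_ax)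
  obtain ⟨s, hs, hs0⟩ := ((h1.eventually (lt_mem_nhds (show (0 : ℝ) < (1 : ℂ).re by simp))).and
    (eventually_gt_atTop 0)).exists
  have hs1 : 0 < rp Dl s := by
    simp only [comp_apply, pow_one, isRe_Dl.eq hs0, qq_ax hs0, ← ofReal_div, ofReal_re] at hs
    exact (div_pos_iff_of_pos_right (Real.exp_pos _)).1 hs
  by_contra hneg
  have hc : ContinuousOn (rp Dl) (Ioi 0) := fun u hu =>
    (hasDerivAt_rp ord_Dl.mdiff hu).continuousAt.continuousWithinAt
  obtain ⟨u, hu, hu0⟩ := isPreconnected_Ioi.intermediate_value ht hs0 hc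
    (show (0 : ℝ) ∈ Icc _ _ from ⟨not_lt.1 hneg, hs1.le⟩)
  exact rp_Dl_ne hu hu0

lemma re_div_Dl {Z : ℍ → ℂ} (m : ℕ) {t : ℝ} (ht : 0 < t) :
    (Z (ax t) / Dl (ax t) ^ m).re = rp Z t / rp Dl t ^ m := by
  rw [isRe_Dl.eq ht, ← ofReal_pow, div_ofReal_re]; rfl

lemma Ord.tendsto_rp {m : ℕ} {Z : ℍ → ℂ} {c : ℂ} (h : Ord m Z c) :
    Tendsto (fun t => rp Z t / rp Dl t ^ m) atTop (𝓝 c.re) := by
  refine ((Complex.continuous_re.tendsto _).comp (h.tendsto_div.comp tendsto_ax)).congr' ?_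
  filter_upwards [eventually_gt_atTop 0] with t ht using re_div_Dl m ht

lemma hasDerivAt_div_Dl {T : ℝ → ℝ} {T1 t : ℝ} (ht : 0 < t) (m : ℕ)
    (h : HasDerivAt T (-2 * π * T1) t) :
    HasDerivAt (fun s => T s / rp Dl s ^ m)
      (-2 * π * ((T1 - m * rp E2 t * T t) / rp Dl t ^ m)) t := by
  have h0 := rp_Dl_ne ht
  refine (h.div ((hasDerivAt_rp ord_Dl.mdiff ht).pow m) (pow_ne_zero m h0)).congr_deriv ?_
  rw [rramD ht]
  rcases m with _ | m
  · simp
  · simp only [Nat.add_sub_cancel, Pi.pow_apply, pow_succ]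
    field_simp
    ring

/-- the differential equation in weight `6 m` -/
def ODE (m : ℕ) (Z : ℍ → ℂ) : Prop :=
  MDiff Z ∧ ∀ z, D (D Z) z = m * E2 z * D Z z - m * (6 * m - 1) / 2 * D E2 z * Z z

lemma ODE.smul {m : ℕ} {Z : ℍ → ℂ} (h : ODE m Z) (a : ℂ) : ODE m (a • Z) := by
  refine ⟨h.1.const_smul a, fun z => ?_⟩
  rw [normalizedDerivOfComplex_smul _ _ h.1,
    normalizedDerivOfComplex_smul _ _ (normalizedDerivOfComplex_mdifferentiable h.1)]
  simp only [Pi.smul_apply, smul_eq_mul, h.2]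
  ring

lemma ode_of_KZ {m : ℕ} {Z : ℍ → ℂ} (hZ : MDiff Z) (h : KZ (6 * m - 1) Z = 0) : ODE m Z := by
  refine ⟨hZ, fun z => ?_⟩
  have := congrFun h z
  rw [KZ_apply hZ, Pi.zero_apply] at this
  push_cast at this
  linear_combination this

lemma ODE.re {m : ℕ} {Z : ℍ → ℂ} (h : ODE m Z) {t : ℝ} (ht : 0 < t) :
    rp (D (D Z)) t = m * rp E2 t * rp (D Z) t - m * (6 * m - 1) / 2 * rp (D E2) t * rp Z t := by
  rw [rp, h.2, isRe_E2.eq ht, (isRe_E2.deriv ord_E2.mdiff).eq ht]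
  have e1 : (m : ℂ) * (rp E2 t : ℝ) = ((m * rp E2 t : ℝ) : ℂ) := by push_cast; ring
  have e2 : (m : ℂ) * (6 * m - 1) / 2 * (rp (D E2) t : ℝ) =
      ((m * (6 * m - 1) / 2 * rp (D E2) t : ℝ) : ℂ) := by push_cast; ring
  rw [e1, e2, sub_re, re_ofReal_mul, re_ofReal_mul]
  rfl

lemma ODE.hasDerivAt_V {m : ℕ} {Z : ℍ → ℂ} (h : ODE m Z) {t : ℝ} (ht : 0 < t) :
    HasDerivAt (fun s => rp (D Z) s / rp Dl s ^ m)
      (-2 * π * (m * (6 * m - 1) / 2 * (-rp (D E2) t) * rp Z t / rp Dl t ^ m)) t := by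
  refine (hasDerivAt_div_Dl ht m
    (hasDerivAt_rp (normalizedDerivOfComplex_mdifferentiable h.1) ht)).congr_deriv ?_
  rw [h.re ht]; ring

lemma V_deriv_nonpos {m : ℕ} (hm : 1 ≤ m) {t y : ℝ} (ht : 0 < t) (hy : 0 ≤ y) :
    -2 * π * (m * (6 * m - 1) / 2 * (-rp (D E2) t) * y / rp Dl t ^ m) ≤ 0 := by
  have h1 := neg_nonneg.2 (DE2_nonpos ht)
  have h2 := rp_Dl_pos ht
  have h3 : (0 : ℝ) ≤ 6 * m - 1 := by
    have : (1 : ℝ) ≤ m := by exact_mod_cast hm
    linarith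
  have : 0 ≤ π * (m * (6 * m - 1) / 2 * (-rp (D E2) t) * y / rp Dl t ^ m) := by positivity
  linarith

lemma ODE.pos {m : ℕ} (hm : 1 ≤ m) {Z : ℍ → ℂ} (h : ODE m Z) {c : ℂ} (hZ : Ord m Z c)
    (hc : 0 < c.re) {t₀ : ℝ} (ht₀ : 0 < t₀) : 0 < rp Z t₀ := by
  by_contra hneg
  have hcont : ContinuousOn (rp Z) (Ici t₀) := fun u hu =>
    (hasDerivAt_rp h.1 (ht₀.trans_le hu)).continuousAt.continuousWithinAt
  obtain ⟨T, hT⟩ := eventually_atTop.1
    ((hZ.tendsto_rp.eventually (lt_mem_nhds hc)).and (eventually_ge_atTop t₀))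
  have hT' : ∀ t, T ≤ t → 0 < rp Z t := fun t ht =>
    (div_pos_iff_of_pos_right (pow_pos (rp_Dl_pos (ht₀.trans_le (hT t ht).2)) m)).1 (hT t ht).1
  have hK : IsCompact (Icc t₀ T ∩ rp Z ⁻¹' Iic 0) :=
    isCompact_Icc.of_isClosed_subset
      ((hcont.mono Icc_subset_Ici_self).preimage_isClosed_of_isClosed isClosed_Icc isClosed_Iic)
      inter_subset_left
  obtain ⟨t₁, ⟨⟨h1, -⟩, h2⟩, h3⟩ := hK.exists_isGreatest
    ⟨t₀, ⟨le_rfl, (hT T le_rfl).2⟩, not_lt.1 hneg⟩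
  have ht₁ : 0 < t₁ := ht₀.trans_le h1
  have hpos : ∀ t, t₁ < t → 0 < rp Z t := by
    intro t ht
    by_contra hn
    rcases le_total T t with hTt | hTt
    · exact hn (hT' t hTt)
    · exact absurd (h3 ⟨⟨h1.trans ht.le, hTt⟩, not_lt.1 hn⟩) (not_le.2 ht)
  have hV : AntitoneOn (fun s => rp (D Z) s / rp Dl s ^ m) (Ici t₁) :=
    antitoneOn_of (convex_Ici _) (fun t ht => h.hasDerivAt_V (ht₁.trans_le ht)) fun t ht => by
      rw [interior_Ici] at ht
      exact V_deriv_nonpos hm (ht₁.trans ht) (hpos t ht).le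
  have hD : ∀ t, t₁ ≤ t → 0 ≤ rp (D Z) t := by
    intro t ht
    have h4 : ((m : ℂ) * c).re ≤ rp (D Z) t / rp Dl t ^ m := by
      refine le_of_tendsto hZ.deriv.tendsto_rp ?_
      filter_upwards [eventually_ge_atTop t] with s hs using hV ht (ht.trans hs) hs
    have h5 : 0 ≤ ((m : ℂ) * c).re := by
      rw [← ofReal_natCast, re_ofReal_mul]; positivity
    have h6 := pow_pos (rp_Dl_pos (ht₁.trans_le ht)) m
    by_contra h7
    exact absurd (h5.trans h4) (not_le.2 (div_neg_of_neg_of_pos (not_le.1 h7) h6))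
  have hx : AntitoneOn (rp Z) (Ici t₁) :=
    antitoneOn_of (convex_Ici _) (fun t ht => hasDerivAt_rp h.1 (ht₁.trans_le ht)) fun t ht => by
      have := hD t (interior_subset ht)
      have : 0 ≤ π * rp (D Z) t := by positivity
      linarith
  have := hx (mem_Ici.2 le_rfl) (mem_Ici.2 (by linarith : t₁ ≤ t₁ + 1)) (by linarith)
  exact absurd ((hpos (t₁ + 1) (by linarith)).trans_le this) (not_lt.2 h2)

lemma ODE.isRe {m : ℕ} (hm : 1 ≤ m) {Z : ℍ → ℂ} (h : ODE m Z) (hZ : Ord m Z 1) : IsRe Z := by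
  intro t ht
  by_contra hne
  let s : ℝ := (Z (ax t)).re / (Z (ax t)).im
  have := (h.smul (1 + s * I)).pos hm (hZ.smul _) (by simp) ht
  simp only [rp, Pi.smul_apply, smul_eq_mul, mul_re, add_re, one_re, ofReal_re, Complex.I_re, mul_zero,
    ofReal_im, Complex.I_im, mul_one, sub_self, add_zero, one_mul, add_im, one_im, mul_im, zero_add,
    s] at this
  rw [div_mul_cancel₀ _ hne, sub_self] at this
  exact lt_irrefl _ this

/-- the inverted function, real on the imaginary axis -/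
noncomputable def iv (k : ℤ) (X : ℍ → ℂ) : ℍ → ℂ := (I ^ k : ℂ) • (X ∣[k] S)

lemma rp_iv (k : ℤ) (X : ℍ → ℂ) {t : ℝ} (ht : 0 < t) : rp (iv k X) t = t ^ (-k) * rp X t⁻¹ := by
  have : iv k X (ax t) = ((t ^ (-k) : ℝ) : ℂ) * X (ax t⁻¹) := by
    simp only [iv, Pi.smul_apply, smul_eq_mul, slS_apply, S_ax ht, coe_ax ht, mul_zpow,
      ofReal_zpow]
    simp only [zpow_neg]
    have : (I : ℂ) ^ k ≠ 0 := zpow_ne_zero _ I_ne_zero
    field_simp
  rw [rp, this, re_ofReal_mul]; rfl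

lemma tendsto_slS {m : ℕ} {Z : ℍ → ℂ} {c : ℂ} (h : Ord m Z c) {j : ℤ} (hj : j < 12 * m) :
    Tendsto (fun t => (Z ∣[j] S) (ax t) / Dl (ax t) ^ m) (𝓝[>] 0) (𝓝 0) := by
  obtain ⟨n, hn⟩ : ∃ n : ℕ, 12 * (m : ℤ) = j + (n + 1 : ℕ) :=
    ⟨(12 * m - j - 1).toNat, by push_cast; omega⟩
  have h1 := (h.tendsto_div.comp tendsto_ax).comp tendsto_inv_nhdsGT_zero
  have h2 : Tendsto (fun t : ℝ => (I * t : ℂ) ^ (n + 1)) (𝓝[>] 0) (𝓝 0) := by
    have : Continuous fun t : ℝ => (I * t : ℂ) ^ (n + 1) := by fun_prop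
    simpa using (this.tendsto 0).mono_left nhdsWithin_le_nhds
  have h3 := h1.mul h2
  rw [mul_zero] at h3
  refine h3.congr' ?_
  filter_upwards [self_mem_nhdsWithin] with t ht
  have ht : 0 < t := ht
  have e := congrFun Dl_S (ax t)
  have hz : (I * t : ℂ) ≠ 0 := by rw [← coe_ax ht]; exact (ax t).ne_zero
  rw [← e]
  simp only [comp_apply, slS_apply, S_ax ht, coe_ax ht]
  rw [mul_pow (Dl _), ← zpow_natCast ((I * t : ℂ) ^ (-12 : ℤ)), ← zpow_mul,
    show -12 * (m : ℤ) = -j - (n + 1 : ℕ) by rw [← neg_add', ← hn]; ring, zpow_sub₀ hz,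
    zpow_natCast]
  have h4 := Dl_ne (ax t⁻¹)
  have h5 : (I * t : ℂ) ^ (-j) ≠ 0 := zpow_ne_zero _ hz
  generalize (I * t : ℂ) ^ (-j) = u at h5
  generalize (I * t : ℂ) = v at hz
  generalize Dl (ax t⁻¹) = d at h4
  field_simp

lemma tendsto_D_iv {m : ℕ} {Z : ℍ → ℂ} {c : ℂ} (h : Ord m Z c) {j : ℤ} (hj : j + 2 < 12 * m) :
    Tendsto (fun t => rp (D (iv j Z)) t / rp Dl t ^ m) (𝓝[>] 0) (𝓝 0) := by
  have h1 := ((tendsto_slS h.deriv hj).sub ((tendsto_slS h (j := j + 1) (by omega)).const_mul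
    (j * (2 * π * I)⁻¹))).const_mul (I ^ j)
  have h2 := (Complex.continuous_re.tendsto _).comp h1
  simp only [mul_zero, sub_zero, zero_re] at h2
  refine h2.congr' ?_
  filter_upwards [self_mem_nhdsWithin] with t ht
  have ht : 0 < t := ht
  rw [← re_div_Dl m ht, comp_apply, iv, normalizedDerivOfComplex_smul _ _ (mdiff_slS h.mdiff j),
    Pi.smul_apply, D_slS h.mdiff, slS_apply Z (j + 1), slS_apply Z j, neg_add,
    zpow_add₀ (ax t).ne_zero, smul_eq_mul]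
  congr 1
  simp only [zpow_neg, zpow_one]
  ring

section main

variable {m : ℕ} {X : ℍ → ℂ}

lemma ode_self (hX : Good (6 * m - 1) X) (ho : Ord m X 1) : ODE m X :=
  ode_of_KZ hX.mdiff (KZ_eq_zero rfl hX ho)

lemma ode_iv (hX : Good (6 * m - 1) X) (ho : Ord m X 1) : ODE m (iv (6 * m - 1) X) := by
  refine (ode_of_KZ (mdiff_slS hX.mdiff _) ?_).smul _
  rw [← KZ_slS hX.mdiff, KZ_eq_zero rfl hX ho]
  ext; simp [slS_apply]

lemma iv_pos (hm : 1 ≤ m) (hX : Good (6 * m - 1) X) (ho : Ord m X 1) {t : ℝ} (ht : 0 < t) :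
    0 < rp (iv (6 * m - 1) X) t := by
  rw [rp_iv _ _ ht]
  exact mul_pos (zpow_pos ht _) ((ode_self hX ho).pos hm ho (by simp) (inv_pos.2 ht))

lemma caseA (hm : 1 ≤ m) (hX : Good (6 * m - 1) X) (ho : Ord m X 1) {t : ℝ} (ht : 0 < t) :
    rp (D (iv (6 * m - 1) X)) t ≤ 0 := by
  have h1 := nonpos_of_antitone (antitoneOn_of (convex_Ioi 0)
    (fun s hs => (ode_iv hX ho).hasDerivAt_V hs) fun s hs => by
      have hs : 0 < s := interior_subset hs
      exact V_deriv_nonpos hm hs (iv_pos hm hX ho hs).le) (tendsto_D_iv ho (by omega)) ht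
  have h2 := pow_pos (rp_Dl_pos ht) m
  by_contra h3
  exact absurd h1 (not_le.2 (div_pos (not_le.1 h3) h2))

lemma E2_mono : MonotoneOn (rp E2) (Ioi 0) :=
  monotoneOn_of (convex_Ioi 0) (fun t ht => hasDerivAt_rp ord_E2.mdiff ht) fun t ht => by
    have := neg_nonneg.2 (DE2_nonpos (interior_subset ht))
    have : 0 ≤ π * -rp (D E2) t := by positivity
    linarith

lemma E2_inv {s : ℝ} (hs : 0 < s) : rp E2 s⁻¹ = -s ^ 2 * rp E2 s + 6 * s / π := by
  have h := E2_S (ax s)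
  rw [slS_apply, S_ax hs, coe_ax hs, isRe_E2.eq hs, isRe_E2.eq (inv_pos.2 hs)] at h
  have hπ : (π : ℂ) ≠ 0 := by exact_mod_cast Real.pi_ne_zero
  have hs' : (s : ℂ) ≠ 0 := by exact_mod_cast hs.ne'
  apply ofReal_injective
  push_cast
  have e : (I * s : ℂ) ^ (-2 : ℤ) = -(s ^ 2 : ℂ)⁻¹ := by
    rw [zpow_neg, zpow_ofNat, mul_pow, I_sq]; simp
  have e2 : 12 * (2 * π * I : ℂ)⁻¹ / (I * s) = -6 / (π * s) := by
    field_simp
    rw [I_sq]; ring
  rw [e, e2] at h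
  field_simp at h ⊢
  linear_combination -h

lemma exists_zero_E2 {t : ℝ} (ht : 0 < t) (h : 0 < rp E2 t) :
    ∃ t₀, 0 < t₀ ∧ t₀ ≤ t ∧ rp E2 t₀ = 0 := by
  set s := max (max t t⁻¹) (6 / (π * rp E2 t)) with hs
  have h1 : t ≤ s := (le_max_left _ _).trans (le_max_left _ _)
  have h2 : t⁻¹ ≤ s := (le_max_right _ _).trans (le_max_left _ _)
  have h3 : 6 / (π * rp E2 t) ≤ s := le_max_right _ _
  have hs0 : 0 < s := ht.trans_le h1
  have hπ := Real.pi_pos
  have h4 : rp E2 t ≤ rp E2 s := E2_mono ht hs0 h1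
  have h5 : rp E2 s⁻¹ ≤ 0 := by
    rw [E2_inv hs0]
    rw [div_le_iff₀ (by positivity)] at h3
    have : 6 * s / π ≤ s ^ 2 * rp E2 t := by
      rw [div_le_iff₀ hπ]; nlinarith
    nlinarith [mul_le_mul_of_nonneg_left h4 (sq_nonneg s)]
  have h6 : s⁻¹ ≤ t := inv_le_of_inv_le₀ ht h2
  have hc : ContinuousOn (rp E2) (Icc s⁻¹ t) := fun u hu =>
    (hasDerivAt_rp ord_E2.mdiff ((inv_pos.2 hs0).trans_le hu.1)).continuousAt.continuousWithinAt
  obtain ⟨u, hu, hu0⟩ := intermediate_value_Icc h6 hc ⟨h5, h.le⟩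
  exact ⟨u, (inv_pos.2 hs0).trans_le hu.1, hu.2, hu0⟩

lemma caseB (hm : 2 ≤ m) (hX : Good (6 * m - 1) X) (ho : Ord m X 1) {t : ℝ} (ht : 0 < t) :
    0 ≤ rp E2 t * rp (D (iv (6 * m - 1) X)) t
      - (6 * m - 1) * rp (D E2) t * rp (iv (6 * m - 1) X) t := by
  have hm1 : 1 ≤ m := by omega
  have hmR : (2 : ℝ) ≤ m := by exact_mod_cast hm
  set Y := iv (6 * m - 1) X with hY
  have hode : ODE m Y := ode_iv hX ho
  have hpos : ∀ s, 0 < s → 0 < rp Y s := fun s hs => iv_pos hm1 hX ho hs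
  rcases le_or_gt (rp E2 t) 0 with h | h
  · have h1 := mul_nonneg_of_nonpos_of_nonpos h (caseA hm1 hX ho ht)
    have h2 : 0 ≤ (6 * m - 1) * (-rp (D E2) t) * rp Y t :=
      mul_nonneg (mul_nonneg (by linarith) (neg_nonneg.2 (DE2_nonpos ht))) (hpos t ht).le
    linarith
  obtain ⟨t₀, ht₀, hle, h0⟩ := exists_zero_E2 ht h
  obtain ⟨n, hn⟩ : ∃ n : ℕ, 6 * m = n + 3 := ⟨6 * m - 3, by omega⟩
  have hnR : (6 * m : ℝ) = n + 3 := by exact_mod_cast hn
  have hmono : MonotoneOn (fun s => (rp E2 s ^ (n + 1) *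
      (rp E2 s * rp (D Y) s - (6 * m - 1) * rp (D E2) s * rp Y s)) / rp Dl s ^ m) (Icc t₀ t) := by
    refine monotoneOn_of (f' := fun s => 2 * π * ((6 * m - 1) * rp E2 s ^ n * rp Y s *
      ((6 * m - 2) * rp (D E2) s ^ 2 + rp E2 s * rp (D (D E2)) s
        - m / 2 * rp (D E2) s * rp E2 s ^ 2) / rp Dl s ^ m)) (convex_Icc _ _) ?_ ?_
    · intro s hs
      have hs : 0 < s := ht₀.trans_le hs.1
      have d2 := hasDerivAt_rp ord_E2.mdiff hs
      have d22 := hasDerivAt_rp ord_E2.deriv.mdiff hs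
      have dy := hasDerivAt_rp hode.1 hs
      have dy1 := hasDerivAt_rp (normalizedDerivOfComplex_mdifferentiable hode.1) hs
      have d := (d2.pow (n + 1)).mul ((d2.mul dy1).sub ((d22.const_mul (6 * m - 1 : ℝ)).mul dy))
      refine (hasDerivAt_div_Dl (T1 := (n + 1) * rp E2 s ^ n * rp (D E2) s *
        (rp E2 s * rp (D Y) s - (6 * m - 1) * rp (D E2) s * rp Y s) + rp E2 s ^ (n + 1) *
        (rp (D E2) s * rp (D Y) s + rp E2 s * rp (D (D Y)) s - (6 * m - 1) *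
          (rp (D (D E2)) s * rp Y s + rp (D E2) s * rp (D Y) s))) hs m
        (d.congr_deriv ?_)).congr_deriv ?_
      · simp only [Nat.add_sub_cancel, Pi.pow_apply, Pi.sub_apply, Pi.mul_apply]
        push_cast
        ring
      · have : (n : ℝ) = 6 * m - 3 := by linarith
        simp only [Pi.pow_apply, Pi.sub_apply, Pi.mul_apply]
        rw [hode.re hs, this]
        ring
    · intro s hs
      have hs := interior_subset hs
      have hs0 : 0 < s := ht₀.trans_le hs.1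
      have h1 : 0 ≤ rp E2 s := h0 ▸ E2_mono ht₀ hs0 hs.1
      have h2 := ineq_G hs0 hmR
      have h3 := hpos s hs0
      have h4 := rp_Dl_pos hs0
      have h5 : (0 : ℝ) ≤ 6 * m - 1 := by linarith
      positivity
  have h1 := hmono ⟨le_rfl, hle⟩ ⟨hle, le_rfl⟩ hle
  simp only [h0, ne_eq, Nat.add_eq_zero_iff, one_ne_zero, and_false, not_false_eq_true, zero_pow,
    zero_mul, zero_div] at h1
  by_contra h2
  exact absurd h1 (not_le.2 (div_neg_of_neg_of_pos (mul_neg_of_pos_of_neg (pow_pos h _)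
    (not_le.1 h2)) (pow_pos (rp_Dl_pos ht) _)))

lemma iv_E4 (k : ℤ) (X : ℍ → ℂ) : iv (k + 4) (E4 * X) = E4 * iv k X := by
  rw [iv, iv, mul_slS (k₁ := 4) (k₂ := k) (by ring), E4_S, zpow_add₀ I_ne_zero]
  ext z
  have : (I : ℂ) ^ (4 : ℤ) = 1 := I_pow_four
  simp only [this, Pi.smul_apply, Pi.mul_apply, smul_eq_mul]
  ring

lemma rp_D_E4_mul {Y : ℍ → ℂ} (hY : MDiff Y) {t : ℝ} (ht : 0 < t) :
    rp (D (E4 * Y)) t = rp (D E4) t * rp Y t + rp E4 t * rp (D Y) t := by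
  rw [normalizedDerivOfComplex_mul _ _ ord_E4.mdiff hY, rp]
  simp only [Pi.add_apply, Pi.mul_apply, isRe_E4.eq ht, (isRe_E4.deriv ord_E4.mdiff).eq ht,
    add_re, re_ofReal_mul]
  rfl

lemma caseC (hm : 2 ≤ m) (hX : Good (6 * m - 1) X) (ho : Ord m X 1) {t : ℝ} (ht : 0 < t) :
    rp (D (iv (6 * m - 1 + 4) (E4 * X))) t ≤ 0 := by
  have hm1 : 1 ≤ m := by omega
  have hmR : (2 : ℝ) ≤ m := by exact_mod_cast hm
  have hlim := tendsto_D_iv (ord_E4.zero_mul ho) (j := 6 * m - 1 + 4) (by omega)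
  rw [iv_E4] at hlim ⊢
  set Y := iv (6 * m - 1) X with hY
  have hode : ODE m Y := ode_iv hX ho
  have hpos : ∀ s, 0 < s → 0 < rp Y s := fun s hs => iv_pos hm1 hX ho hs
  have hanti : AntitoneOn (fun s => ((rp (D E4) s * rp Y s + rp E4 s * rp (D Y) s) / rp E4 s ^ 2)
      / rp Dl s ^ m) (Ioi 0) := by
    refine antitoneOn_of (f' := fun s => 2 * π * (rp Y s * (2 * rp (D E4) s ^ 2
      - rp E4 s * rp (D (D E4)) s + m * rp E2 s * rp E4 s * rp (D E4) s
      + m * (6 * m - 1) / 2 * rp (D E2) s * rp E4 s ^ 2) / rp E4 s ^ 3 / rp Dl s ^ m))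
      (convex_Ioi 0) ?_ ?_
    · intro s hs
      have hs : 0 < s := hs
      have h4 : rp E4 s ≠ 0 := by have := one_le_E4 hs; positivity
      have d4 := hasDerivAt_rp ord_E4.mdiff hs
      have d44 := hasDerivAt_rp ord_E4.deriv.mdiff hs
      have dy := hasDerivAt_rp hode.1 hs
      have dy1 := hasDerivAt_rp (normalizedDerivOfComplex_mdifferentiable hode.1) hs
      have d := ((d44.mul dy).add (d4.mul dy1)).div (d4.pow 2) (pow_ne_zero 2 h4)
      refine (hasDerivAt_div_Dl (T1 := ((rp (D (D E4)) s * rp Y s + 2 * rp (D E4) s * rp (D Y) s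
        + rp E4 s * rp (D (D Y)) s) * rp E4 s - 2 * rp (D E4) s *
          (rp (D E4) s * rp Y s + rp E4 s * rp (D Y) s)) / rp E4 s ^ 3) hs m
        (d.congr_deriv ?_)).congr_deriv ?_
      · simp only [Pi.pow_apply, Pi.add_apply, Pi.mul_apply]
        field_simp
        ring
      · simp only [Pi.pow_apply, Pi.add_apply, Pi.mul_apply, Pi.div_apply]
        rw [hode.re hs]
        field_simp
        ring
    · intro s hs
      have hs : 0 < s := interior_subset hs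
      have h1 := neg_nonneg.2 (ineq_F hs hmR)
      have h3 := hpos s hs
      have h4 := rp_Dl_pos hs
      have h5 : 0 < rp E4 s := by have := one_le_E4 hs; linarith
      have : 0 ≤ 2 * π * (rp Y s * (-(2 * rp (D E4) s ^ 2
        - rp E4 s * rp (D (D E4)) s + m * rp E2 s * rp E4 s * rp (D E4) s
        + m * (6 * m - 1) / 2 * rp (D E2) s * rp E4 s ^ 2)) / rp E4 s ^ 3 / rp Dl s ^ m) := by
        positivity
      rw [mul_neg, neg_div, neg_div, mul_neg] at this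
      linarith
  have hlim2 : Tendsto (fun s => ((rp (D E4) s * rp Y s + rp E4 s * rp (D Y) s) / rp E4 s ^ 2)
      / rp Dl s ^ m) (𝓝[>] 0) (𝓝 0) := by
    refine squeeze_zero_norm' ?_ (tendsto_zero_iff_norm_tendsto_zero.1 hlim)
    filter_upwards [self_mem_nhdsWithin] with s hs
    have hs : 0 < s := hs
    rw [rp_D_E4_mul hode.1 hs, div_right_comm, norm_div]
    refine div_le_self (norm_nonneg _) ?_
    rw [Real.norm_eq_abs, abs_of_nonneg (sq_nonneg _)]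
    exact one_le_pow₀ (one_le_E4 hs)
  have h1 := nonpos_of_antitone hanti hlim2 ht
  rw [rp_D_E4_mul hode.1 ht]
  by_contra h2
  have h5 : 0 < rp E4 t := by have := one_le_E4 ht; linarith
  exact absurd h1 (not_le.2 (div_pos (div_pos (not_le.1 h2) (pow_pos h5 2))
    (pow_pos (rp_Dl_pos ht) m)))

end main

lemma antitone_of {k : ℕ} {X : ℍ → ℂ} (hX : MDiff X)
    (h : ∀ t, 0 < t → rp (D (iv k X)) t ≤ 0) {s t : ℝ} (hs : 0 < s) (hst : s ≤ t) :
    t ^ k * rp X t ≤ s ^ k * rp X s := by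
  have ht := hs.trans_le hst
  have hm : MonotoneOn (rp (iv k X)) (Ioi 0) :=
    monotoneOn_of (convex_Ioi 0)
      (fun u hu => hasDerivAt_rp ((mdiff_slS hX k).const_smul _) hu) fun u hu => by
        have := neg_nonneg.2 (h u (interior_subset hu))
        have : 0 ≤ π * -rp (D (iv k X)) u := by positivity
        change 0 ≤ -2 * π * rp (D (iv k X)) u
        linarith
  have := hm (inv_pos.2 ht) (inv_pos.2 hs) (inv_anti₀ hs hst)
  simpa [rp_iv _ _ (inv_pos.2 ht), rp_iv _ _ (inv_pos.2 hs)] using this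

lemma isRe_serre {X : ℍ → ℂ} (h : IsRe X) (hX : MDiff X) (k : ℤ) :
    IsRe (serreDerivative k X) := by
  intro t ht
  rw [serreDerivative_apply, (h.deriv hX).eq ht, isRe_E2.eq ht, h.eq ht]
  simp

lemma exists_form (w : ℕ) (hw : Even w) : ∃ X, Good (w - 1) X ∧ Ord (w / 6) X 1 ∧
    (6 ≤ w → IsRe X) ∧ (6 ≤ w → w ≠ 8 → w ≠ 10 → ∀ t, 0 < t → rp (D (iv (w - 1) X)) t ≤ 0) := by
  obtain ⟨X, hX, ho⟩ := exists_six (w / 6)
  set m := w / 6 with hm
  have hc : w = 6 * m ∨ w = 6 * m + 2 ∨ w = 6 * m + 4 := by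
    obtain ⟨r, hr⟩ := hw; omega
  rcases hc with hc | hc | hc
  · have e : (w : ℤ) - 1 = 6 * m - 1 := by omega
    rw [e]
    exact ⟨X, hX, ho, fun h => (ode_self hX ho).isRe (by omega) ho,
      fun h _ _ t ht => caseA (by omega) hX ho ht⟩
  · have e : (w : ℤ) - 1 = 6 * m - 1 + 2 := by omega
    rw [e]
    have hne : (6 * m + 1 : ℂ) ≠ 0 := by exact_mod_cast (by omega : 6 * m + 1 ≠ 0)
    refine ⟨((12 / (6 * m + 1) : ℝ) : ℂ) • serreDerivative (6 * m - 1 : ℤ) X,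
      (hX.serre rfl).smul _, ((ho.serre _).smul _).congr (fun _ => rfl) ?_, fun h t ht => ?_,
      fun h h8 _ t ht => ?_⟩
    · push_cast; field_simp; ring
    · have := isRe_serre ((ode_self hX ho).isRe (by omega) ho) hX.mdiff (6 * m - 1) t ht
      simp only [Pi.smul_apply, smul_eq_mul, im_ofReal_mul, this, mul_zero]
    · have hB := caseB (by omega) hX ho ht
      have hode := ode_iv hX ho
      have e1 : iv (6 * m - 1 + 2) (((12 / (6 * m + 1) : ℝ) : ℂ) •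
          serreDerivative (6 * m - 1 : ℤ) X) = ((-12 / (6 * m + 1) : ℝ) : ℂ) •
            (D (iv (6 * m - 1) X) - (((6 * m - 1) / 12 : ℝ) : ℂ) • (E2 * iv (6 * m - 1) X)) := by
        rw [iv, iv, smul_slS, serre_slS hX.mdiff rfl, zpow_add₀ I_ne_zero,
          normalizedDerivOfComplex_smul _ _ (mdiff_slS hX.mdiff _)]
        ext z
        have : (I : ℂ) ^ (2 : ℤ) = -1 := I_sq
        simp only [this, Pi.smul_apply, Pi.mul_apply, Pi.sub_apply, smul_eq_mul,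
          serreDerivative_apply]
        push_cast
        ring
      rw [e1]
      set Y := iv (6 * m - 1) X
      have hD := normalizedDerivOfComplex_mdifferentiable hode.1
      have hE := ord_E2.mdiff.mul hode.1
      rw [normalizedDerivOfComplex_smul _ _ (hD.sub (hE.const_smul _)),
        normalizedDerivOfComplex_sub _ _ hD (hE.const_smul _),
        normalizedDerivOfComplex_smul _ _ hE,
        normalizedDerivOfComplex_mul _ _ ord_E2.mdiff hode.1, rp]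
      simp only [Pi.smul_apply, Pi.mul_apply, Pi.sub_apply, Pi.add_apply, smul_eq_mul,
        re_ofReal_mul, sub_re, add_re, isRe_E2.eq ht, (isRe_E2.deriv ord_E2.mdiff).eq ht]
      change -12 / (6 * m + 1 : ℝ) * (rp (D (D Y)) t - (6 * m - 1) / 12 *
        (rp (D E2) t * rp Y t + rp E2 t * rp (D Y) t)) ≤ 0
      rw [hode.re ht]
      have hpos : (0 : ℝ) < 6 * m + 1 := by positivity
      have : -12 / (6 * m + 1 : ℝ) * (m * rp E2 t * rp (D Y) t
          - m * (6 * m - 1) / 2 * rp (D E2) t * rp Y t - (6 * m - 1) / 12 *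
          (rp (D E2) t * rp Y t + rp E2 t * rp (D Y) t)) =
          -(rp E2 t * rp (D Y) t - (6 * m - 1) * rp (D E2) t * rp Y t) := by
        field_simp
        ring
      rw [this]
      linarith
  · have e : (w : ℤ) - 1 = 6 * m - 1 + 4 := by omega
    rw [e]
    refine ⟨E4 * X, hX.mul ord_E4 E4_S (by ring), (ord_E4.zero_mul ho).congr (fun _ => rfl)
      (by ring), fun h t ht => ?_, fun h _ h10 t ht => caseC (by omega) hX ho ht⟩
    have := (ode_self hX ho).isRe (by omega) ho t ht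
    simp only [Pi.mul_apply, isRe_E4.eq ht, im_ofReal_mul, this, mul_zero]

lemma dim_eq (w : ℕ) (hw : Even w) (h2 : 2 ≤ w) :
    Module.finrank ℂ (ModularForm 𝒮ℒ (w : ℤ)) + Module.finrank ℂ (ModularForm 𝒮ℒ ((w : ℤ) - 2))
      - 1 = w / 6 := by
  have key : ∀ k : ℕ, Even k → Module.finrank ℂ (ModularForm 𝒮ℒ (k : ℤ)) =
      if k % 12 = 2 then k / 12 else k / 12 + 1 := by
    intro k hk
    apply Module.finrank_eq_of_rank_eq
    rw [dimension_level_one k hk]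
    simp only [Nat.ModEq]
    split_ifs <;> simp_all
  obtain ⟨v, rfl⟩ := Nat.exists_eq_add_of_le h2
  have hv : Even v := by
    obtain ⟨r, hr⟩ := hw
    exact ⟨r - 1, by omega⟩
  rw [show ((2 + v : ℕ) : ℤ) - 2 = (v : ℤ) by push_cast; ring, key _ hw, key _ hv]
  obtain ⟨r, rfl⟩ := hv
  split_ifs <;> omega

end Pool.Agent.Lib.MP_d6a497_nt
end
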