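import Mathlib

/-! Order of vanishing at the cusp for functions on the upper half plane. -/

namespace Pool.Agent.Lib.MP_d6a497_nt

open UpperHalfPlane hiding I
open Complex Filter Metric Function Derivative
open scoped Manifold MatrixGroups ModularForm Topology Real

/-- the nome -/
noncomputable def qq (τ : ℍ) : ℂ := Periodic.qParam 1 (τ : ℂ)

lemma qq_mem (τ : ℍ) : qq τ ∈ ball (0 : ℂ) 1 := by
  simpa [qq] using Periodic.norm_qParam_lt_one one_pos τ.im_pos

lemma qq_ne (τ : ℍ) : qq τ ≠ 0 := Periodic.qParam_ne_zero _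

lemma qq_tendsto : Tendsto qq atImInfty (𝓝 0) := qParam_tendsto_atImInfty one_pos

/-- `F = q ^ n * G q` with `G` holomorphic on the unit disc and `G 0 = c`. -/
def Ord (n : ℕ) (F : ℍ → ℂ) (c : ℂ) : Prop :=
  ∃ G : ℂ → ℂ, DifferentiableOn ℂ G (ball 0 1) ∧ G 0 = c ∧ ∀ τ, F τ = qq τ ^ n * G (qq τ)

namespace Ord

variable {n m : ℕ} {F F' : ℍ → ℂ} {c c' : ℂ}

lemma congr (h : Ord n F c) (hF : ∀ τ, F' τ = F τ) (hc : c' = c) : Ord n F' c' := by
  obtain rfl : F' = F := funext hF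
  exact hc ▸ h

lemma add (h : Ord n F c) (h' : Ord n F' c') : Ord n (F + F') (c + c') := by
  obtain ⟨G, hG, rfl, e⟩ := h
  obtain ⟨G', hG', rfl, e'⟩ := h'
  exact ⟨G + G', hG.add hG', rfl, fun τ => by simp [e, e', mul_add]⟩

lemma sub (h : Ord n F c) (h' : Ord n F' c') : Ord n (F - F') (c - c') := by
  obtain ⟨G, hG, rfl, e⟩ := h
  obtain ⟨G', hG', rfl, e'⟩ := h'
  exact ⟨G - G', hG.sub hG', rfl, fun τ => by simp [e, e', mul_sub]⟩

lemma smul (h : Ord n F c) (a : ℂ) : Ord n (a • F) (a * c) := by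
  obtain ⟨G, hG, rfl, e⟩ := h
  exact ⟨a • G, hG.const_smul a, rfl, fun τ => by simp [e]; ring⟩

lemma mul (h : Ord n F c) (h' : Ord m F' c') : Ord (n + m) (F * F') (c * c') := by
  obtain ⟨G, hG, rfl, e⟩ := h
  obtain ⟨G', hG', rfl, e'⟩ := h'
  exact ⟨G * G', hG.mul hG', rfl, fun τ => by simp [e, e']; ring⟩

lemma zero_mul (h : Ord 0 F c) (h' : Ord m F' c') : Ord m (F * F') (c * c') := by
  simpa using h.mul h'

lemma const (a : ℂ) : Ord 0 (fun _ => a) a :=
  ⟨fun _ => a, differentiableOn_const a, rfl, fun τ => by simp⟩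

lemma pow (h : Ord n F c) (k : ℕ) : Ord (k * n) (F ^ k) (c ^ k) := by
  induction k with
  | zero => simpa using (const 1).congr (F' := 1) (fun _ => rfl) rfl
  | succ k ih => simpa [pow_succ, add_mul] using ih.mul h

lemma succ (h : Ord n F 0) : ∃ c, Ord (n + 1) F c := by
  obtain ⟨G, hG, h0, e⟩ := h
  refine ⟨_, dslope G 0, (differentiableOn_dslope (ball_mem_nhds _ one_pos)).2 hG, rfl, fun τ => ?_⟩
  have := sub_smul_dslope G 0 (qq τ)
  rw [h0, sub_zero, sub_zero, smul_eq_mul] at this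
  rw [e, ← this]; ring

lemma of_lt (h : Ord n F c) (hm : m < n) : Ord m F 0 := by
  obtain ⟨G, hG, h0, e⟩ := h
  obtain ⟨k, rfl⟩ := Nat.exists_eq_add_of_lt hm
  refine ⟨fun w => w ^ (k + 1) * G w, (differentiableOn_id.pow _).mul hG, by simp, fun τ => ?_⟩
  rw [e]; ring

lemma of_le (h : Ord n F c) (hm : m ≤ n) : ∃ c', Ord m F c' := by
  rcases hm.eq_or_lt with rfl | hm
  · exact ⟨_, h⟩
  · exact ⟨_, h.of_lt hm⟩

lemma tendsto (h : Ord n F c) : Tendsto (fun τ => F τ / qq τ ^ n) atImInfty (𝓝 c) := by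
  obtain ⟨G, hG, rfl, e⟩ := h
  have : ContinuousAt G 0 := (hG.differentiableAt (ball_mem_nhds _ one_pos)).continuousAt
  refine (this.tendsto.comp qq_tendsto).congr fun τ => ?_
  have := qq_ne τ
  simp only [comp_apply, e]
  field_simp

lemma unique (h : Ord n F c) (h' : Ord n F c') : c = c' :=
  tendsto_nhds_unique h.tendsto h'.tendsto

lemma zero (n : ℕ) : Ord n 0 0 := ⟨0, differentiableOn_const 0, rfl, fun τ => by simp⟩

lemma eventuallyEq {G : ℂ → ℂ} (e : ∀ τ, F τ = G (qq τ)) (τ : ℍ) :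
    F ∘ ofComplex =ᶠ[𝓝 (τ : ℂ)] fun z => G (Periodic.qParam 1 z) := by
  filter_upwards [isOpen_upperHalfPlaneSet.mem_nhds τ.im_pos] with z hz
  simp [e, qq, ofComplex_apply_of_im_pos hz]

lemma hasDerivAt_qParam (z : ℂ) :
    HasDerivAt (Periodic.qParam 1) (2 * π * I * Periodic.qParam 1 z) z := by
  have := ((hasDerivAt_id z).const_mul (2 * π * I)).cexp
  have e : Periodic.qParam 1 = fun w : ℂ => cexp (2 * π * I * id w) := by
    ext w; simp [Periodic.qParam]
  rw [e]
  exact this.congr_deriv (by ring)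

lemma hasDerivAt_of {G : ℂ → ℂ} (hG : DifferentiableOn ℂ G (ball 0 1))
    (e : ∀ τ, F τ = G (qq τ)) (τ : ℍ) :
    HasDerivAt (F ∘ ofComplex) (deriv G (qq τ) * (2 * π * I * qq τ)) τ := by
  have h1 : HasDerivAt G (deriv G (qq τ)) (Periodic.qParam 1 (τ : ℂ)) :=
    (hG.differentiableAt (isOpen_ball.mem_nhds (qq_mem τ))).hasDerivAt
  exact (h1.comp (τ : ℂ) (hasDerivAt_qParam τ)).congr_of_eventuallyEq (eventuallyEq e τ)

lemma mdiff (h : Ord n F c) : MDiff F := by
  obtain ⟨G, hG, -, e⟩ := h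
  intro τ
  exact UpperHalfPlane.mdifferentiableAt_iff.2
    (hasDerivAt_of (G := fun w => w ^ n * G w) ((differentiableOn_id.pow n).mul hG) e
      τ).differentiableAt

lemma deriv (h : Ord n F c) : Ord n (D F) (n * c) := by
  obtain ⟨G, hG, rfl, e⟩ := h
  refine ⟨fun w => n * G w + w * _root_.deriv G w,
    (hG.const_mul _).add (differentiableOn_id.mul (hG.deriv isOpen_ball)), by simp, fun τ => ?_⟩
  have h1 := hasDerivAt_of (G := fun w => w ^ n * G w) ((differentiableOn_id.pow n).mul hG) e τ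
  have h2 : HasDerivAt (fun w => w ^ n * G w)
      (n * qq τ ^ (n - 1) * G (qq τ) + qq τ ^ n * _root_.deriv G (qq τ)) (qq τ) :=
    (hasDerivAt_pow n (qq τ)).mul
      (hG.differentiableAt (isOpen_ball.mem_nhds (qq_mem τ))).hasDerivAt
  rw [normalizedDerivOfComplex, h1.deriv, h2.deriv]
  have hπ : (2 * π * I : ℂ) ≠ 0 := two_pi_I_ne_zero
  rcases n with _ | n
  · simp only [Nat.cast_zero, pow_zero]; field_simp; ring
  · simp only [Nat.add_sub_cancel, pow_succ]; field_simp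

lemma vadd_one (h : Ord n F c) (τ : ℍ) : F ((1 : ℝ) +ᵥ τ) = F τ := by
  obtain ⟨G, -, -, e⟩ := h
  have : qq ((1 : ℝ) +ᵥ τ) = qq τ := by
    simp only [qq, Periodic.qParam, coe_vadd, ofReal_one, div_one]
    rw [mul_add, mul_one, add_comm, exp_periodic]
  rw [e, e, this]

lemma periodic (h : Ord n F c) : Periodic (F ∘ ofComplex) (1 : ℝ) := by
  intro w
  by_cases hw : 0 < w.im
  · have : 0 < (w + (1 : ℝ)).im := by simpa using hw
    simp only [comp_apply, ofComplex_apply_of_im_pos this, ofComplex_apply_of_im_pos hw]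
    rw [← h.vadd_one ⟨w, hw⟩]
    congr 1
    ext
    simp [add_comm]
  · have hw' : w.im ≤ 0 := not_lt.1 hw
    have : (w + (1 : ℝ)).im ≤ 0 := by simpa using hw'
    simp only [comp_apply, ofComplex_apply_of_im_nonpos this, ofComplex_apply_of_im_nonpos hw']

lemma slash_T (h : Ord n F c) (k : ℤ) : F ∣[k] ModularGroup.T = F := by
  ext z
  rw [ModularForm.SL_slash_apply, modular_T_smul, h.vadd_one, ModularGroup.denom_apply]
  simp [ModularGroup.T]

lemma bdd (h : Ord n F c) : IsBoundedAtImInfty F := by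
  obtain ⟨c', h'⟩ := h.of_le (Nat.zero_le n)
  have := h'.tendsto
  simp only [pow_zero, div_one] at this
  exact this.isBigO_one ℝ

lemma analytic (h : Ord n F c) : AnalyticAt ℂ (cuspFunction 1 F) 0 :=
  analyticAt_cuspFunction_zero one_pos h.periodic h.mdiff h.bdd

lemma of_periodic (hp : Periodic (F ∘ ofComplex) (1 : ℝ)) (hd : MDiff F)
    (hb : IsBoundedAtImInfty F) : Ord 0 F ((qExpansion 1 F).coeff 0) :=
  ⟨cuspFunction 1 F, differentiableOn_cuspFunction_ball one_pos hp hd hb,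
    by simp [qExpansion_coeff], fun τ => by simp [qq, eq_cuspFunction τ one_ne_zero hp]⟩

lemma of_mf {k : ℤ} (f : ModularForm 𝒮ℒ k) : Ord 0 f ((qExpansion 1 f).coeff 0) :=
  haveI : Fact (IsCusp OnePoint.infty 𝒮ℒ) :=
    ⟨(𝒮ℒ).isCusp_of_mem_strictPeriods one_pos one_mem_strictPeriods_SL⟩
  of_periodic (SlashInvariantFormClass.periodic_comp_ofComplex f one_mem_strictPeriods_SL)
    (ModularFormClass.holo f) (ModularFormClass.bdd_at_infty f)

lemma coeff_eq (h : Ord n F c) : (qExpansion 1 F).coeff n = c := by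
  have ha := h.analytic
  have hp := h.periodic
  obtain ⟨G, hG, rfl, e⟩ := h
  have hGa : AnalyticAt ℂ G 0 := hG.analyticAt (ball_mem_nhds _ one_pos)
  have hb : AnalyticAt ℂ (fun w : ℂ => w ^ n * G w) 0 := (analyticAt_id.pow n).mul hGa
  have heq : cuspFunction 1 F =ᶠ[𝓝 0] fun w => w ^ n * G w := by
    rw [← ha.continuousAt.eventuallyEq_nhds_iff_eventuallyEq_nhdsNE hb.continuousAt]
    filter_upwards [self_mem_nhdsWithin, mem_nhdsWithin_of_mem_nhds (ball_mem_nhds (0 : ℂ) one_pos)]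
      with w hw hw1
    have him := Periodic.im_invQParam_pos_of_norm_lt_one one_pos (by simpa using hw1) hw
    have hq : qq ⟨_, him⟩ = w := Periodic.qParam_right_inv one_ne_zero hw
    rw [← hq, ← e]
    exact eq_cuspFunction _ one_ne_zero hp
  rw [qExpansion_coeff, heq.iteratedDeriv_eq,
    show (fun w : ℂ => w ^ n * G w) = (fun w : ℂ => w ^ n) * G from rfl,
    iteratedDeriv_mul (by fun_prop) hGa.contDiffAt, Finset.sum_eq_single n]
  · have : (n.factorial : ℂ) ≠ 0 := by exact_mod_cast n.factorial_ne_zero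
    simp [iteratedDeriv_pow, Nat.descFactorial_self]
    field_simp
  · intro j hj hjn
    have : n - j ≠ 0 := by have := Finset.mem_range.1 hj; omega
    simp [iteratedDeriv_pow, this]
  · simp

lemma coeff_lt (h : Ord n F c) (hm : m < n) : (qExpansion 1 F).coeff m = 0 :=
  (h.of_lt hm).coeff_eq

lemma of_coeff (h : Ord 0 F c) (hz : ∀ j < n, (qExpansion 1 F).coeff j = 0) :
    Ord n F ((qExpansion 1 F).coeff n) := by
  have : ∃ c', Ord n F c' := by
    induction n with
    | zero => exact ⟨_, h⟩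
    | succ n ih =>
      obtain ⟨c', h'⟩ := ih fun j hj => hz j (by omega)
      have : c' = 0 := h'.coeff_eq.symm.trans (hz n (by omega))
      exact (this ▸ h').succ
  obtain ⟨c', h'⟩ := this
  exact h'.coeff_eq ▸ h'

lemma le_order (h : Ord n F c) : (n : ℕ∞) ≤ (qExpansion 1 F).order :=
  PowerSeries.nat_le_order _ _ fun _ hj => h.coeff_lt hj

lemma exists_or (h : Ord 0 F c) (n : ℕ) :
    (∃ b, Ord n F b) ∨ ∃ r < n, ∃ b, b ≠ 0 ∧ Ord r F b := by
  induction n with
  | zero => exact Or.inl ⟨_, h⟩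
  | succ n ih =>
    rcases ih with ⟨b, hb⟩ | ⟨r, hr, hb⟩
    · by_cases h0 : b = 0
      · exact Or.inl (h0 ▸ hb).succ
      · exact Or.inr ⟨n, by omega, b, h0, hb⟩
    · exact Or.inr ⟨r, by omega, hb⟩

lemma exists_ne (h : Ord 0 F c) (hF : F ≠ 0) : ∃ r b, b ≠ 0 ∧ Ord r F b := by
  by_contra hc
  apply hF
  rw [← qExpansion_eq_zero_iff one_pos h.periodic h.mdiff h.bdd]
  ext j
  rcases h.exists_or (j + 1) with ⟨b, hb⟩ | ⟨r, -, b, hb⟩
  · simpa using hb.coeff_lt (Nat.lt_succ_self j)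
  · exact absurd ⟨r, b, hb⟩ hc

end Ord

/-- termwise differentiation of a q-series -/
lemma hasSum_D {F : ℍ → ℂ} {c : ℕ → ℂ} (h : ∀ τ, HasSum (fun m => c m * qq τ ^ m) (F τ)) (τ : ℍ) :
    HasSum (fun m : ℕ => (m * c m) * qq τ ^ m) (D F τ) := by
  set ε : ℝ := τ.im / 2 with hε
  have hε0 : 0 < ε := by have := τ.im_pos; positivity
  let σ : ℍ := ⟨I * ε, by simpa using hε0⟩
  let U : Set ℂ := {z | ε < z.im}
  have hU : IsOpen U := isOpen_lt continuous_const Complex.continuous_im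
  have hτ : (τ : ℂ) ∈ U := by
    have := τ.im_pos
    show ε < τ.im
    linarith
  have hs : Summable fun m => ‖c m * qq σ ^ m‖ := (h σ).summable.norm
  have hd : ∀ m : ℕ, ∀ z : ℂ, HasDerivAt (fun z => c m * Periodic.qParam 1 z ^ m)
      (c m * (m * Periodic.qParam 1 z ^ (m - 1) * (2 * π * I * Periodic.qParam 1 z))) z :=
    fun m z => ((Ord.hasDerivAt_qParam z).pow m).const_mul _
  have key := Complex.hasSum_deriv_of_summable_norm
    (F := fun (m : ℕ) (z : ℂ) => c m * Periodic.qParam 1 z ^ m) hs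
    (fun m z _ => (hd m z).differentiableAt.differentiableWithinAt) hU (fun m z hz => by
      simp only [norm_mul, norm_pow]
      gcongr
      simp only [qq, Periodic.norm_qParam, σ]
      apply Real.exp_le_exp.2
      have : ε < z.im := hz
      simp
      nlinarith [Real.pi_pos]) hτ
  have heq : (fun w : ℂ => ∑' m, c m * Periodic.qParam 1 w ^ m) =ᶠ[𝓝 (τ : ℂ)] F ∘ ofComplex := by
    filter_upwards [isOpen_upperHalfPlaneSet.mem_nhds τ.im_pos] with z hz
    simp only [comp_apply, ofComplex_apply_of_im_pos hz]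
    exact (h ⟨z, hz⟩).tsum_eq
  rw [heq.deriv_eq] at key
  have hπ : (2 * π * I : ℂ) ≠ 0 := two_pi_I_ne_zero
  have key2 := key.mul_left (2 * π * I)⁻¹
  refine (funext fun m => ?_ : _ = fun m : ℕ => (m * c m) * qq τ ^ m) ▸ key2
  rw [(hd m τ).deriv]
  rcases m with _ | m
  · simp
  · simp only [Nat.add_sub_cancel, pow_succ, qq]; field_simp

end Pool.Agent.Lib.MP_d6a497_nt
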